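import Pool.Agent.Lib.MP_b3fcb1_lc_proj.Base

/-!
# AcB (45 min): basic facts on the access cost

`ac_append`, `ac_shift`: induction on the word. `ac_filter`: induction on the word, `a :: w` with `a` not `x`, `y`:
nothing happens on both sides; otherwise the filtered history is filtered again (`List.filter_filter`,
`hP` applied to `h` and `h.filter (pr x y)`). `cost_ge_AC`: induction on `w`; one step: `cost_ge` (Pair.lean) and
`2 * position = sum of acc` (`sum_acc`, `acc_symm`), or directly: the position of `x` changes by at most one with
every paid exchange (`exchange_val`), so `R.cost x π ≥ 1 + π x`, and `π x` is the number of items ahead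
(`sum_ah`).
-/

set_option autoImplicit false

namespace Pool.Agent.Lib.MP_b3fcb1_lc.PR

open Finset

variable {n : ℕ}

theorem ac_append (S : St n) (x y : Fin n) (h w w' : List (Fin n)) :
    ac S x y h (w ++ w') = ac S x y h w + ac S x y (w.reverse ++ h) w' := by
  induction w generalizing h with
  | nil => simp [ac]
  | cons a w ih =>
    rw [List.cons_append, ac, ac, ih (a :: h), List.reverse_cons, List.append_assoc,
      List.singleton_append]
    omega

theorem AC_append (S : St n) (h w w' : List (Fin n)) :
    AC S h (w ++ w') = AC S h w + AC S (w.reverse ++ h) w' := by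
  unfold AC
  rw [← Finset.sum_add_distrib]
  refine Finset.sum_congr rfl fun x _ => ?_
  rw [← Finset.sum_add_distrib]
  exact Finset.sum_congr rfl fun y _ => ac_append S x y h w w'

theorem ac_shift (S : St n) (x y : Fin n) (H h w : List (Fin n)) :
    ac (fun h' => S (h' ++ H)) x y h w = ac S x y (h ++ H) w := by
  induction w generalizing h with
  | nil => simp [ac]
  | cons a w ih =>
    rw [ac, ac, ih (a :: h), List.cons_append]

theorem AC_shift (S : St n) (H h w : List (Fin n)) :
    AC (fun h' => S (h' ++ H)) h w = AC S (h ++ H) w := by
  unfold AC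
  exact Finset.sum_congr rfl fun x _ => Finset.sum_congr rfl fun y _ => ac_shift S x y H h w

theorem Inj.shift {S : St n} (hS : Inj S) (H : List (Fin n)) : Inj (fun h => S (h ++ H)) :=
  fun h => hS (h ++ H)

theorem Prj.shift {S : St n} (hP : Prj S) (H : List (Fin n)) : Prj (fun h => S (h ++ H)) := by
  intro x y h h' hh
  apply hP
  rw [List.filter_append, List.filter_append, hh]

theorem acb_pr_comm (x y : Fin n) : pr y x = pr x y := by
  funext a
  simp only [pr, or_comm]

theorem acb_filter_idem (x y : Fin n) (h : List (Fin n)) :
    (h.filter (pr x y)).filter (pr x y) = h.filter (pr x y) := by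
  rw [List.filter_filter]
  congr 1
  funext a
  exact Bool.and_self _

theorem ac_filter {S : St n} (hP : Prj S) (x y : Fin n) (h w : List (Fin n)) :
    ac S x y h w = ac S x y (h.filter (pr x y)) (w.filter (pr x y)) := by
  induction w generalizing h with
  | nil => simp [ac]
  | cons a w ih =>
    have h1 : S h y < S h x ↔ S (h.filter (pr x y)) y < S (h.filter (pr x y)) x := by
      apply hP
      rw [acb_pr_comm x y, acb_filter_idem]
    by_cases ha : pr x y a = true
    · rw [List.filter_cons_of_pos ha, ac, ac, ih (a :: h), List.filter_cons_of_pos ha]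
      simp only [h1]
    · rw [List.filter_cons_of_neg ha, ac, ih (a :: h), List.filter_cons_of_neg ha, if_neg, zero_add]
      rintro ⟨h2, _⟩
      apply ha
      simp [pr, h2]

theorem inj_listAfter (D : List (Fin n) → Response) (π : ItemList n) :
    Inj (fun h => key (listAfter D π h)) := fun _ => key_inj _

theorem prj_listAfter {D : List (Fin n) → Response} {π : ItemList n} (h : IsProjective D π) :
    Prj (fun h => key (listAfter D π h)) := by
  intro x y h1 h2 h3
  rw [key_lt, key_lt]
  exact h x y h1 h2 h3

theorem acb_cost (R : Response) (r : Fin n) (π : ItemList n) : 1 + (π r : ℕ) ≤ R.cost r π := by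
  have h1 := cost_ge R r π
  have h2 := sum_acc r π
  have h3 : ∑ x, ∑ y, acc r (key π) x y ≤ ∑ x, ∑ y, pc r (key π) (key (R.next r π)) x y := by
    refine Finset.sum_le_sum fun x _ => Finset.sum_le_sum fun y _ => ?_
    by_cases hxy : x = y
    · subst hxy
      unfold acc
      rw [ah_self]
      simp
    · unfold acc pc
      by_cases hx : r = x
      · have hy : r ≠ y := fun h => hxy (hx.symm.trans h)
        rw [if_pos hx, if_neg hy, if_pos hx]
        exact le_max_left _ _
      · by_cases hy : r = y
        · rw [if_neg hx, if_pos hy, if_neg hx, if_pos hy, zero_add]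
          exact le_max_left _ _
        · rw [if_neg hx, if_neg hy]
          exact Nat.zero_le _
  omega

theorem acb_sum_one (π : ItemList n) (a : Fin n) :
    ∑ x, ∑ y, (if a = x ∧ key π y < key π x then 1 else 0) = (π a : ℕ) := by
  rw [Finset.sum_eq_single a]
  · rw [← sum_ah π a]
    refine Finset.sum_congr rfl fun y _ => ?_
    unfold ah
    simp
  · intro b _ hb
    refine Finset.sum_eq_zero fun y _ => ?_
    rw [if_neg]
    rintro ⟨h, _⟩
    exact hb h.symm
  · intro h
    exact absurd (Finset.mem_univ a) h

theorem cost_ge_AC (D : List (Fin n) → Response) (π : ItemList n) (h w : List (Fin n)) :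
    w.length + AC (fun h => key (listAfter D π h)) h w ≤ costFrom D h (listAfter D π h) w := by
  induction w generalizing h with
  | nil =>
    have h1 : AC (fun h => key (listAfter D π h)) h [] = 0 := by
      unfold AC
      exact Finset.sum_eq_zero fun x _ => Finset.sum_eq_zero fun y _ => rfl
    rw [h1]
    exact Nat.zero_le _
  | cons a w ih =>
    have h1 : AC (fun h => key (listAfter D π h)) h (a :: w) =
        ((listAfter D π h) a : ℕ) + AC (fun h => key (listAfter D π h)) (a :: h) w := by
      unfold AC
      rw [← acb_sum_one (listAfter D π h) a, ← Finset.sum_add_distrib]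
      refine Finset.sum_congr rfl fun x _ => ?_
      rw [← Finset.sum_add_distrib]
      exact Finset.sum_congr rfl fun y _ => rfl
    have h2 := ih (a :: h)
    have h3 : costFrom D h (listAfter D π h) (a :: w) = (D (a :: h)).cost a (listAfter D π h) +
        costFrom D (a :: h) (listAfter D π (a :: h)) w := rfl
    have h4 := acb_cost (D (a :: h)) a (listAfter D π h)
    rw [h1, h3, List.length_cons]
    omega

end Pool.Agent.Lib.MP_b3fcb1_lc.PR
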