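import Pool.Agent.Lib.MP_b3fcb1_lc.Model

/-!
Projective list update algorithms: the order of two items depends only on the requests to them.
-/

namespace Pool.Agent.Lib.MP_b3fcb1_lc

open MeasureTheory

/-- The list of the deterministic algorithm `D`, started with the list `π`, after the requests in
the history `h` (the latest request first). -/
def listAfter {n : ℕ} (D : List (Fin n) → Response) (π : ItemList n) : List (Fin n) → ItemList n
  | [] => π
  | x :: h => (D (x :: h)).next x (listAfter D π h)

/-- The deterministic algorithm `D`, started with the list `π`, is projective: for any two items
`x`, `y`, whether `x` is ahead of `y` depends only on the subsequence of the requests to `x` and to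
`y`. -/
def IsProjective {n : ℕ} (D : List (Fin n) → Response) (π : ItemList n) : Prop :=
  ∀ (x y : Fin n) (h h' : List (Fin n)),
    h.filter (fun a => a = x ∨ a = y) = h'.filter (fun a => a = x ∨ a = y) →
    (listAfter D π h x < listAfter D π h y ↔ listAfter D π h' x < listAfter D π h' y)

/-- A randomized algorithm is projective: for every initial list, almost all of its deterministic
realisations are projective. -/
def RandAlg.Projective {n : ℕ} (A : RandAlg n) : Prop :=
  let _ := A.mΩ
  ∀ π : ItemList n, ∀ᵐ ω ∂A.μ, IsProjective (A.resp ω π) π

end Pool.Agent.Lib.MP_b3fcb1_lc
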