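import Pool.Agent.Lib.MP_b3fcb1_lc.Noise
import Pool.Agent.Lib.MP_b3fcb1_lc_proj.PDefs

/-!
Definitions for the 8/5 barrier of projective algorithms. HISTORIES ARE LISTS WITH THE LATEST REQUEST
FIRST, words to be served are in the order of time.
-/

namespace Pool.Agent.Lib.MP_b3fcb1_lc.PR

open Finset

variable {n : ℕ}

/-- State functions: the list (as an injective function, smaller = closer to the front) after
every history. -/
abbrev St (n : ℕ) : Type := List (Fin n) → Fin n → ℤ

def Inj (S : St n) : Prop := ∀ h, Function.Injective (S h)

/-- The predicate of being `x` or `y`. -/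
abbrev pr (x y : Fin n) : Fin n → Bool := fun a => decide (a = x ∨ a = y)

def Prj (S : St n) : Prop := ∀ (x y : Fin n) (h h' : List (Fin n)),
  h.filter (pr x y) = h'.filter (pr x y) → (S h x < S h y ↔ S h' x < S h' y)

/-- Number of requests to `x` in the word (served after the history `h`) at which `y` is ahead
of `x`. -/
def ac (S : St n) (x y : Fin n) : List (Fin n) → List (Fin n) → ℕ
  | _, [] => 0
  | h, a :: w => (if a = x ∧ S h y < S h x then 1 else 0) + ac S x y (a :: h) w

/-- Total access cost (positions counted from 0). -/
def AC (S : St n) (h w : List (Fin n)) : ℕ := ∑ x, ∑ y, ac S x y h w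

/-- The occurrence number `e` (from 0, latest first) of `y` in the history is later than the
occurrence number `d` of `x`. -/
def later (y x : Fin n) : ℕ → ℕ → List (Fin n) → Prop
  | _, _, [] => False
  | e, d, a :: h => if a = y then (e = 0 ∨ later y x (e - 1) d h)
      else if a = x then (d ≠ 0 ∧ later y x e (d - 1) h) else later y x e d h

/-- `y` is ahead of `x` in the main part: `x` has lag `d`, `y` has lag `e`, there were `s` main
requests to `x` and `t` main requests to `y`, `mx` and `my` per round, `x` before `y` in the round;
`o` says that the prefix run of `y` is later than that of `x`. -/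
def ya (o : Bool) (mx my d e s t : ℕ) : Prop :=
  (e < t ∧ (s ≤ d ∨ (s - 1 - d) / mx ≤ (t - 1 - e) / my)) ∨ (s ≤ d ∧ t ≤ e ∧ o = true)

instance (o : Bool) (mx my d e s t : ℕ) : Decidable (ya o mx my d e s t) := by
  unfold ya; infer_instance

/-- Cost of round `ρ` for constant lags. -/
def rc (o : Bool) (mx my d e ρ : ℕ) : ℕ :=
  ((range mx).filter fun j => ya o mx my d e (ρ * mx + j) (ρ * my)).card +
  ((range my).filter fun j => ¬ ya o mx my d e ((ρ + 1) * mx) (ρ * my + j)).card

/-- Cost of `L` rounds for constant lags. -/
def TT (o : Bool) (mx my L d e : ℕ) : ℕ := ∑ ρ ∈ range L, rc o mx my d e ρ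

/-- All items in increasing order (`o = true`) or decreasing order, item `a` requested `r a` times
in a row. -/
def pre (o : Bool) (r : Fin n → ℕ) : List (Fin n) :=
  (if o then List.finRange n else (List.finRange n).reverse).flatMap fun a => List.replicate (r a) a

/-- `L` rounds: all items in increasing order, item `a` requested `mm a` times in a row. -/
def mainW (mm : Fin n → ℕ) (L : ℕ) : List (Fin n) := (List.replicate L (pre true mm)).flatten

/-- Multiplicities: `m` in `X`, `1` outside. -/
def mlt (X : Fin n → Bool) (m : ℕ) : Fin n → ℕ := fun a => if X a then m else 1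

/-- The random choices of a phase. -/
abbrev Ix (n M N : ℕ) : Type := Bool × (Fin n → Fin M) × (Fin n → Bool) × Fin N

/-- The word of a phase. -/
def wd (L : ℕ) {M N : ℕ} (ι : Ix n M N) : List (Fin n) :=
  pre ι.1 (fun a => (ι.2.1 a : ℕ) + 1) ++ mainW (mlt ι.2.2.1 (N + 1 + (ι.2.2.2 : ℕ))) L

/-- Average over a finite type. -/
noncomputable def av {α : Type*} [Fintype α] (f : α → ℝ) : ℝ := (∑ a, f a) / Fintype.card α

/-- Two letter prefix (history: latest first): for `o = true` the run of `x` comes first in time. -/
def pre2 (o : Bool) (x y : Fin n) (rx ry : ℕ) : List (Fin n) :=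
  if o then List.replicate ry y ++ List.replicate rx x
  else List.replicate rx x ++ List.replicate ry y

/-- Two letter rounds (in the order of time). -/
def rds (x y : Fin n) (mx my L : ℕ) : List (Fin n) :=
  (List.replicate L (List.replicate mx x ++ List.replicate my y)).flatten

/-- Main cost of the pair `x, y`. -/
def pm (S : St n) (x y : Fin n) (o : Bool) (rx ry mx my L : ℕ) : ℕ :=
  ac S x y (pre2 o x y rx ry) (rds x y mx my L) + ac S y x (pre2 o x y rx ry) (rds x y mx my L)

/-- `a`, requested `i` times, is still ahead of `b`, requested `j` times afterwards. -/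
def Late (S : St n) (a b : Fin n) (i j : ℕ) : Prop :=
  S (List.replicate j b ++ List.replicate i a) a < S (List.replicate j b ++ List.replicate i a) b

instance (S : St n) (a b : Fin n) (i j : ℕ) : Decidable (Late S a b i j) := by
  unfold Late; infer_instance

/-- Number of late events, all counts in `[1, K]`. -/
def LAM (S : St n) (K : ℕ) : ℕ := ∑ a, ∑ b, if a = b then 0 else
  ∑ i ∈ Icc 1 K, ((Icc 1 K).filter fun j => Late S a b i j).card

/-- `x` (requested `i` times) is ahead of the reference item `z`, whose `k` requests are inserted
after the first `g` requests to `x`. -/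
def al (S : St n) (z : Fin n) (k : ℕ) (x : Fin n) (i g : ℕ) : Prop :=
  S (List.replicate (i - g) x ++ (List.replicate k z ++ List.replicate g x)) x <
    S (List.replicate (i - g) x ++ (List.replicate k z ++ List.replicate g x)) z

instance (S : St n) (z : Fin n) (k : ℕ) (x : Fin n) (i g : ℕ) : Decidable (al S z k x i g) := by
  unfold al; infer_instance

/-- good counts -/
def Good (S : St n) (z : Fin n) (k : ℕ) (x : Fin n) (i : ℕ) : Prop :=
  al S z k x i 0 ∧ ¬ al S z k x i i

instance (S : St n) (z : Fin n) (k : ℕ) (x : Fin n) (i : ℕ) : Decidable (Good S z k x i) := by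
  unfold Good; infer_instance

/-- the lag of `x` after `i` requests: `i` minus the threshold -/
def lag (S : St n) (z : Fin n) (k : ℕ) (x : Fin n) (i : ℕ) : ℕ :=
  i - ((range (i + 1)).filter fun g => al S z k x i g).card

/-- The index order as an integer list. -/
def idx : Fin n → ℤ := fun a => (a : ℕ)

/-- The word can be served from the index order back to the index order at cost at most `c / 2`. -/
def Off (w : List (Fin n)) (c : ℕ) : Prop := ∃ LP : List (Fin n × (Fin n → ℤ)),
  LP.map Prod.fst = w ∧ (∀ p ∈ LP, Function.Injective p.2) ∧
    2 * LP.length + ∑ x, ∑ y, po x y idx LP idx ≤ c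

end Pool.Agent.Lib.MP_b3fcb1_lc.PR
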