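import Pool.Agent.Lib.MP_b3fcb1_lc_proj.Base

/-!
# Cho (35 min): choice of the reference

`¬ Good S z k x i` implies `Late S z x k i` or `Late S x z i k` (`Good` = `al 0` and not `al i`;
`al S z k x i 0` is about `replicate i x ++ (replicate k z ++ [])`, `al S z k x i i` about
`replicate 0 x ++ (replicate k z ++ replicate i x)`; `hS` for totality). So the sum over all `z` and `k ∈ [1, K]` of the numbers
of bad `(x, i)` is at most `2 LAM S K`, and some `(z, k)` has at most the average
(`Finset.exists_le_of_sum_le` or `by_contra` and `Finset.sum_lt_sum_of_nonempty`).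
-/

set_option autoImplicit false

namespace Pool.Agent.Lib.MP_b3fcb1_lc.PR

open Finset

variable {n : ℕ}

theorem cho_late {S : St n} (hS : Inj S) {z x : Fin n} (hzx : x ≠ z) {k i : ℕ}
    (h : ¬ Good S z k x i) : Late S z x k i ∨ Late S x z i k := by
  unfold Good at h
  rw [not_and_or, not_not] at h
  rcases h with h | h
  · left
    unfold al at h
    unfold Late
    simp only [Nat.sub_zero, List.replicate_zero, List.append_nil] at h
    have h1 : S (List.replicate i x ++ List.replicate k z) x ≠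
        S (List.replicate i x ++ List.replicate k z) z := fun h2 => hzx (hS _ h2)
    omega
  · right
    unfold al at h
    unfold Late
    simpa using h

theorem cho_sum {S : St n} (hS : Inj S) (K : ℕ) :
    ∑ z, ∑ k ∈ Icc 1 K, ∑ x ∈ univ.erase z, ((Icc 1 K).filter fun i => ¬ Good S z k x i).card ≤
      2 * LAM S K := by
  have hc : ∀ (z : Fin n) (f : Fin n → ℕ), ∑ x ∈ univ.erase z, f x =
      ∑ x, if z = x then 0 else f x := by
    intro z f
    rw [← Finset.sum_erase (a := z) univ]
    · refine Finset.sum_congr rfl fun x hx => ?_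
      rw [if_neg (Ne.symm (Finset.ne_of_mem_erase hx))]
    · simp
  have h1 : ∑ z, ∑ k ∈ Icc 1 K, ∑ x ∈ univ.erase z,
      ((Icc 1 K).filter fun i => ¬ Good S z k x i).card ≤
      ∑ z, ∑ k ∈ Icc 1 K, ∑ x ∈ univ.erase z,
        (((Icc 1 K).filter fun i => Late S z x k i).card +
          ((Icc 1 K).filter fun i => Late S x z i k).card) := by
    refine Finset.sum_le_sum fun z _ => Finset.sum_le_sum fun k _ => Finset.sum_le_sum
      fun x hx => ?_
    have hzx := Finset.ne_of_mem_erase hx
    refine (Finset.card_le_card ?_).trans (Finset.card_union_le _ _)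
    intro i hi
    rw [Finset.mem_filter] at hi
    rw [Finset.mem_union, Finset.mem_filter, Finset.mem_filter]
    rcases cho_late hS hzx hi.2 with h | h
    · exact Or.inl ⟨hi.1, h⟩
    · exact Or.inr ⟨hi.1, h⟩
  have h2 : ∑ z, ∑ k ∈ Icc 1 K, ∑ x ∈ univ.erase z,
      ((Icc 1 K).filter fun i => Late S z x k i).card = LAM S K := by
    unfold LAM
    refine Finset.sum_congr rfl fun z _ => ?_
    rw [Finset.sum_comm, hc]
  have h3 : ∑ z, ∑ k ∈ Icc 1 K, ∑ x ∈ univ.erase z,
      ((Icc 1 K).filter fun i => Late S x z i k).card = LAM S K := by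
    unfold LAM
    have h4 : ∀ z : Fin n, ∑ k ∈ Icc 1 K, ∑ x ∈ univ.erase z,
        ((Icc 1 K).filter fun i => Late S x z i k).card =
        ∑ x, if x = z then 0 else
          ∑ i ∈ Icc 1 K, ((Icc 1 K).filter fun k => Late S x z i k).card := by
      intro z
      rw [Finset.sum_comm, hc]
      refine Finset.sum_congr rfl fun x _ => ?_
      by_cases hx : z = x
      · rw [if_pos hx, if_pos hx.symm]
      · rw [if_neg hx, if_neg (Ne.symm hx)]
        simp_rw [Finset.card_filter]
        rw [Finset.sum_comm]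
    rw [Finset.sum_congr rfl fun z _ => h4 z, Finset.sum_comm]
  simp_rw [Finset.sum_add_distrib] at h1
  rw [h2, h3] at h1
  omega

theorem choice {S : St n} (hS : Inj S) (hn : 0 < n) {K : ℕ} (hK : 0 < K) : ∃ (z : Fin n) (k : ℕ),
    n * K * ∑ x ∈ univ.erase z, ((Icc 1 K).filter fun i => ¬ Good S z k x i).card ≤
      2 * LAM S K := by
  by_contra hne
  push Not at hne
  have h1 := cho_sum hS K
  have h2 : ∑ z : Fin n, ∑ k ∈ Icc 1 K, 2 * LAM S K < ∑ z : Fin n, ∑ k ∈ Icc 1 K,
      (n * K * ∑ x ∈ univ.erase z, ((Icc 1 K).filter fun i => ¬ Good S z k x i).card) := by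
    have : Nonempty (Fin n) := ⟨⟨0, hn⟩⟩
    refine Finset.sum_lt_sum_of_nonempty Finset.univ_nonempty fun z _ => ?_
    refine Finset.sum_lt_sum_of_nonempty ⟨1, Finset.mem_Icc.mpr ⟨le_refl _, hK⟩⟩ fun k _ => ?_
    exact hne z k
  have h3 : ∑ z : Fin n, ∑ k ∈ Icc 1 K, 2 * LAM S K = n * K * (2 * LAM S K) := by
    simp [mul_assoc]
  have h4 : ∑ z : Fin n, ∑ k ∈ Icc 1 K,
      (n * K * ∑ x ∈ univ.erase z, ((Icc 1 K).filter fun i => ¬ Good S z k x i).card) =
      n * K * ∑ z, ∑ k ∈ Icc 1 K, ∑ x ∈ univ.erase z,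
        ((Icc 1 K).filter fun i => ¬ Good S z k x i).card := by
    rw [Finset.mul_sum]
    refine Finset.sum_congr rfl fun z _ => ?_
    rw [Finset.mul_sum]
  rw [h3, h4] at h2
  exact absurd (Nat.mul_le_mul_left (n * K) h1) (not_le.mpr h2)

end Pool.Agent.Lib.MP_b3fcb1_lc.PR
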