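import Pool.Agent.Lib.MP_b3fcb1_lc_proj.Base

/-!
# ConA (60 min, pure arithmetic of `ya`): rounds of two items requested `m` times

Write `e/m`, `d/m`: quotients, `d = q m + a`, `e = q' m + b`.  All claims for `1 ≤ ρ`.
`rc_mm_small`: `d, e < m`: for `j ≤ d` `y` is ahead at the requests to `x`: `e < ρ m` and either `ρ m + j ≤ d` or the
quotients: `(ρ m + j - 1 - d)/m ≤ ρ - 1 = (ρ m - 1 - e)/m`. For `j ≤ e`: not `ya .. ((ρ+1) m) (ρ m + j)`:
`s = (ρ+1) m > d`, and `(s - 1 - d)/m = ρ > (ρ m + j - 1 - e)/m`.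
`rc_mm_mixed`: one of `d, e` is `< m`, the other `≥ m`: the one with the large lag pays `m`.
`rc_mm_large`: both `≥ m`, `ρ ≠ d/m`, `ρ ≠ e/m`: if `d/m ≠ e/m`: `m`; if `d/m = e/m = q`: for `ρ < q` all keys are in the
prefix: one of them pays `m`; for `ρ > q`: `(a + 1) + (b + 1)`.
(For `q > q'` and `ρ > q'` : `x` pays `m`; `ρ < q'`: all in the prefix. For `q < q'`: `ρ > q`: `y` pays `m`; `ρ < q`: prefix.)
Useful: `Nat.div_lt_iff_lt_mul`, `Nat.le_div_iff_mul_le`, `Nat.div_add_mod`; a filter that contains `range c` has card `≥ c`.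
-/

set_option autoImplicit false

namespace Pool.Agent.Lib.MP_b3fcb1_lc.PR

open Finset

lemma ya_of {o : Bool} {mx my d e s t : ℕ} (hx : 0 < mx) (hy : 0 < my) (r : ℕ)
    (h1 : e < t) (h2 : d < s → s - 1 - d < (r + 1) * mx) (h3 : r * my ≤ t - 1 - e) :
    ya o mx my d e s t := by
  refine Or.inl ⟨h1, ?_⟩
  by_cases h : d < s
  · right
    have a : (s - 1 - d) / mx < r + 1 := (Nat.div_lt_iff_lt_mul hx).2 (h2 h)
    have b : r ≤ (t - 1 - e) / my := (Nat.le_div_iff_mul_le hy).2 h3
    omega
  · left; omega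

lemma not_ya_of {o : Bool} {mx my d e s t : ℕ} (hx : 0 < mx) (hy : 0 < my) (r : ℕ)
    (h1 : d < s) (h2 : e < t → t - 1 - e < r * my) (h3 : r * mx ≤ s - 1 - d) :
    ¬ ya o mx my d e s t := by
  have b : r ≤ (s - 1 - d) / mx := (Nat.le_div_iff_mul_le hx).2 h3
  rintro (⟨a1, a2 | a2⟩ | ⟨a1, a2, a3⟩)
  · omega
  · have a : (t - 1 - e) / my < r := (Nat.div_lt_iff_lt_mul hy).2 (h2 a1)
    omega
  · omega

lemma card_first {o : Bool} {mx my d e ρ c : ℕ} (hc : c ≤ mx)
    (h : ∀ j < c, ya o mx my d e (ρ * mx + j) (ρ * my)) :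
    c ≤ ((range mx).filter fun j => ya o mx my d e (ρ * mx + j) (ρ * my)).card := by
  calc c = (range c).card := (card_range c).symm
    _ ≤ _ := card_le_card (fun u hu => by
      rw [mem_range] at hu
      exact mem_filter.2 ⟨mem_range.2 (by omega), h u hu⟩)

lemma card_second {o : Bool} {mx my d e ρ c : ℕ} (hc : c ≤ my)
    (h : ∀ j < c, ¬ ya o mx my d e ((ρ + 1) * mx) (ρ * my + j)) :
    c ≤ ((range my).filter fun j => ¬ ya o mx my d e ((ρ + 1) * mx) (ρ * my + j)).card := by
  calc c = (range c).card := (card_range c).symm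
    _ ≤ _ := card_le_card (fun u hu => by
      rw [mem_range] at hu
      exact mem_filter.2 ⟨mem_range.2 (by omega), h u hu⟩)

theorem rc_mm_small (o : Bool) {m d e ρ : ℕ} (hd : d < m) (he : e < m) (hρ : 1 ≤ ρ) :
    d + e + 2 ≤ rc o m m d e ρ := by
  obtain ⟨k, rfl⟩ : ∃ k, ρ = k + 1 := ⟨ρ - 1, by omega⟩
  have hm : 0 < m := by omega
  have e1 : (k + 1) * m = k * m + m := by ring
  have e2 : (k + 1 + 1) * m = k * m + m + m := by ring
  have hy := card_first (o := o) (mx := m) (my := m) (d := d) (e := e) (ρ := k + 1) (c := d + 1)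
    (by omega) (fun u hu => ya_of hm hm k (by omega) (by intro; omega) (by omega))
  have hx := card_second (o := o) (mx := m) (my := m) (d := d) (e := e) (ρ := k + 1) (c := e + 1)
    (by omega) (fun v hv => not_ya_of hm hm (k + 1) (by omega) (by intro; omega) (by omega))
  unfold rc
  omega

theorem rc_mm_mixed (o : Bool) {m d e ρ : ℕ} (h : (d < m ∧ m ≤ e) ∨ (m ≤ d ∧ e < m))
    (hρ : 1 ≤ ρ) : m ≤ rc o m m d e ρ := by
  obtain ⟨k, rfl⟩ : ∃ k, ρ = k + 1 := ⟨ρ - 1, by omega⟩
  have e1 : (k + 1) * m = k * m + m := by ring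
  have e2 : (k + 1 + 1) * m = k * m + m + m := by ring
  rcases h with ⟨hd, he⟩ | ⟨hd, he⟩
  · have hm : 0 < m := by omega
    have hx := card_second (o := o) (mx := m) (my := m) (d := d) (e := e) (ρ := k + 1) (c := m)
      le_rfl (fun v hv => not_ya_of hm hm (k + 1) (by omega) (by intro; omega) (by omega))
    unfold rc
    omega
  · have hm : 0 < m := by omega
    have hy := card_first (o := o) (mx := m) (my := m) (d := d) (e := e) (ρ := k + 1) (c := m)
      le_rfl (fun u hu => ya_of hm hm k (by omega) (by intro; omega) (by omega))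
    unfold rc
    omega

lemma rc_mm_pref (o : Bool) {m d e ρ : ℕ} (hd : (ρ + 1) * m ≤ d) (he : (ρ + 1) * m ≤ e) :
    m ≤ rc o m m d e ρ := by
  have e1 : (ρ + 1) * m = ρ * m + m := by ring
  cases o with
  | true =>
    have hy := card_first (o := true) (mx := m) (my := m) (d := d) (e := e) (ρ := ρ) (c := m)
      le_rfl (fun u hu => Or.inr ⟨by omega, by omega, rfl⟩)
    unfold rc
    omega
  | false =>
    have hx := card_second (o := false) (mx := m) (my := m) (d := d) (e := e) (ρ := ρ) (c := m)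
      le_rfl (fun u hu => by
        rintro (⟨a1, -⟩ | ⟨-, -, a3⟩)
        · omega
        · exact absurd a3 (by decide))
    unfold rc
    omega

theorem rc_mm_large (o : Bool) {m d e ρ : ℕ} (hm : 0 < m) (hd : m ≤ d) (he : m ≤ e)
    (h1 : ρ ≠ d / m) (h2 : ρ ≠ e / m) :
    m ≤ rc o m m d e ρ ∨
      (d / m = e / m ∧ d / m < ρ ∧ d % m + e % m + 2 ≤ rc o m m d e ρ) := by
  have hdq : d = d / m * m + d % m := (Nat.div_add_mod' d m).symm
  have heq : e = e / m * m + e % m := (Nat.div_add_mod' e m).symm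
  have ha : d % m < m := Nat.mod_lt _ hm
  have hb : e % m < m := Nat.mod_lt _ hm
  generalize d / m = Q at *
  generalize e / m = Q' at *
  generalize d % m = a at *
  generalize e % m = b at *
  subst hdq heq
  have hmul : ∀ {i j : ℕ}, i ≤ j → i * m ≤ j * m := fun h => Nat.mul_le_mul_right m h
  rcases lt_trichotomy Q Q' with hlt | heq | hgt
  · left
    rcases lt_or_ge ρ Q with hr | hr
    · have := hmul (i := ρ + 1) (j := Q) (by omega)
      have := hmul (i := ρ + 1) (j := Q') (by omega)
      exact rc_mm_pref o (by omega) (by omega)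
    · obtain ⟨k, rfl⟩ : ∃ k, ρ = Q + k := ⟨ρ - Q, by omega⟩
      obtain ⟨j, rfl⟩ : ∃ j, Q' = Q + 1 + j := ⟨Q' - Q - 1, by omega⟩
      have e1 : (Q + k + 1) * m = Q * m + k * m + m := by ring
      have e2 : (Q + k) * m = Q * m + k * m := by ring
      have e3 : (Q + 1 + j) * m = Q * m + m + j * m := by ring
      have hx := card_second (o := o) (mx := m) (my := m) (d := Q * m + a)
        (e := (Q + 1 + j) * m + b) (ρ := Q + k) (c := m)
        le_rfl (fun v hv => not_ya_of hm hm k (by omega) (by intro; omega) (by omega))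
      unfold rc
      omega
  · subst heq
    rcases lt_or_ge ρ Q with hr | hr
    · left
      have := hmul (i := ρ + 1) (j := Q) (by omega)
      exact rc_mm_pref o (by omega) (by omega)
    · right
      obtain ⟨k, rfl⟩ : ∃ k, ρ = Q + 1 + k := ⟨ρ - Q - 1, by omega⟩
      have e2 : (Q + 1 + k) * m = Q * m + m + k * m := by ring
      have e3 : (Q + 1 + k + 1) * m = Q * m + m + k * m + m := by ring
      have e4 : (k + 1) * m = k * m + m := by ring
      have hy := card_first (o := o) (mx := m) (my := m) (d := Q * m + a) (e := Q * m + b)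
        (ρ := Q + 1 + k) (c := a + 1)
        (by omega) (fun u hu => ya_of hm hm k (by omega) (by intro; omega) (by omega))
      have hx := card_second (o := o) (mx := m) (my := m) (d := Q * m + a) (e := Q * m + b)
        (ρ := Q + 1 + k) (c := b + 1) (by omega)
        (fun v hv => not_ya_of hm hm (k + 1) (by omega) (by intro; omega) (by omega))
      refine ⟨rfl, by omega, ?_⟩
      unfold rc
      omega
  · left
    rcases lt_or_ge ρ Q' with hr | hr
    · have := hmul (i := ρ + 1) (j := Q) (by omega)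
      have := hmul (i := ρ + 1) (j := Q') (by omega)
      exact rc_mm_pref o (by omega) (by omega)
    · obtain ⟨k, rfl⟩ : ∃ k, ρ = Q' + 1 + k := ⟨ρ - Q' - 1, by omega⟩
      obtain ⟨j, rfl⟩ : ∃ j, Q = Q' + 1 + j := ⟨Q - Q' - 1, by omega⟩
      have e2 : (Q' + 1 + k) * m = Q' * m + m + k * m := by ring
      have e3 : (Q' + 1 + j) * m = Q' * m + m + j * m := by ring
      have e4 : (k + 1) * m = k * m + m := by ring
      have hy := card_first (o := o) (mx := m) (my := m) (d := (Q' + 1 + j) * m + a)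
        (e := Q' * m + b) (ρ := Q' + 1 + k) (c := m)
        le_rfl (fun u hu => ya_of hm hm k (by omega) (by intro; omega) (by omega))
      unfold rc
      omega

end Pool.Agent.Lib.MP_b3fcb1_lc.PR
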