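import Pool.Agent.Lib.MP_b3fcb1_lc_proj.ConA

/-!
# ConB (50 min, pure arithmetic of `ya`): the other rounds

`rc_ge_one`: if `y` is not ahead at the first request to `x` of the round (`s = ρ mx`, `t = ρ my`) then it is not
ahead at the first request to `y` (`s = (ρ+1) mx`, `t = ρ my`): `ya` is monotone decreasing in `s`
(`s ≤ d` and the quotient).
`rc_one_one`: `mx = my = 1`, `d = e < ρ`: both requests cost 1.
`rc_m_one`: `(x^m y)`, `d < m`, `e = 0`: `j ≤ d`: `ya`: `0 < ρ`, `ρ m + j ≤ d` or `(ρ m + j - 1 - d)/m ≤ ρ - 1`; and `x` is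
ahead at the request to `y`: `((ρ+1) m - 1 - d)/m = ρ > ρ - 1`. `rc_one_m`: `(x y^m)`, `d = 0`, `e < m`: `j ≤ e`: not
`ya` with `s = ρ + 1`, `t = ρ m + j`; and at the request to `x`: `ya` with `s = ρ`, `t = ρ m`.
-/

set_option autoImplicit false

namespace Pool.Agent.Lib.MP_b3fcb1_lc.PR

open Finset

theorem rc_ge_one (o : Bool) {mx my : ℕ} (hx : 0 < mx) (hy : 0 < my) (d e ρ : ℕ) :
    1 ≤ rc o mx my d e ρ := by
  by_cases h : ya o mx my d e (ρ * mx + 0) (ρ * my)
  · have := card_first (o := o) (mx := mx) (my := my) (d := d) (e := e) (ρ := ρ) (c := 1) hx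
      (fun u hu => by have : u = 0 := by omega
                      subst this; exact h)
    unfold rc
    omega
  · have hx' : ¬ ya o mx my d e ((ρ + 1) * mx) (ρ * my + 0) := by
      intro h'
      apply h
      rw [Nat.add_zero] at h' ⊢
      have e1 : (ρ + 1) * mx = ρ * mx + mx := by ring
      rcases h' with ⟨a1, a2 | a2⟩ | ⟨a1, a2, a3⟩
      · exact Or.inl ⟨a1, Or.inl (by omega)⟩
      · exact Or.inl ⟨a1, Or.inr (le_trans (Nat.div_le_div_right (by omega)) a2)⟩
      · exact Or.inr ⟨by omega, a2, a3⟩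
    have := card_second (o := o) (mx := mx) (my := my) (d := d) (e := e) (ρ := ρ) (c := 1) hy
      (fun u hu => by have : u = 0 := by omega
                      subst this; exact hx')
    unfold rc
    omega

theorem rc_one_one (o : Bool) {d ρ : ℕ} (h : d < ρ) : 2 ≤ rc o 1 1 d d ρ := by
  obtain ⟨k, rfl⟩ : ∃ k, ρ = k + 1 + d := ⟨ρ - 1 - d, by omega⟩
  have hy := card_first (o := o) (mx := 1) (my := 1) (d := d) (e := d) (ρ := k + 1 + d) (c := 1)
    (by omega) (fun u hu => ya_of one_pos one_pos k (by omega) (by intro; omega) (by omega))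
  have hx := card_second (o := o) (mx := 1) (my := 1) (d := d) (e := d) (ρ := k + 1 + d) (c := 1)
    (by omega) (fun v hv => not_ya_of one_pos one_pos (k + 1) (by omega) (by intro; omega)
      (by omega))
  unfold rc
  omega

theorem rc_m_one (o : Bool) {m d ρ : ℕ} (hd : d < m) (hρ : 1 ≤ ρ) : d + 2 ≤ rc o m 1 d 0 ρ := by
  obtain ⟨k, rfl⟩ : ∃ k, ρ = k + 1 := ⟨ρ - 1, by omega⟩
  have hm : 0 < m := by omega
  have e1 : (k + 1) * m = k * m + m := by ring
  have e2 : (k + 1 + 1) * m = k * m + m + m := by ring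
  have hy := card_first (o := o) (mx := m) (my := 1) (d := d) (e := 0) (ρ := k + 1) (c := d + 1)
    (by omega) (fun u hu => ya_of hm one_pos k (by omega) (by intro; omega) (by omega))
  have hx := card_second (o := o) (mx := m) (my := 1) (d := d) (e := 0) (ρ := k + 1) (c := 1)
    (by omega) (fun v hv => not_ya_of hm one_pos (k + 1) (by omega) (by intro; omega) (by omega))
  unfold rc
  omega

theorem rc_one_m (o : Bool) {m e ρ : ℕ} (he : e < m) (hρ : 1 ≤ ρ) : e + 2 ≤ rc o 1 m 0 e ρ := by
  obtain ⟨k, rfl⟩ : ∃ k, ρ = k + 1 := ⟨ρ - 1, by omega⟩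
  have hm : 0 < m := by omega
  have e1 : (k + 1) * m = k * m + m := by ring
  have e2 : (k + 1 + 1) * m = k * m + m + m := by ring
  have hy := card_first (o := o) (mx := 1) (my := m) (d := 0) (e := e) (ρ := k + 1) (c := 1)
    (by omega) (fun u hu => ya_of one_pos hm k (by omega) (by intro; omega) (by omega))
  have hx := card_second (o := o) (mx := 1) (my := m) (d := 0) (e := e) (ρ := k + 1) (c := e + 1)
    (by omega) (fun v hv => not_ya_of one_pos hm (k + 1) (by omega) (by intro; omega) (by omega))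
  unfold rc
  omega

end Pool.Agent.Lib.MP_b3fcb1_lc.PR
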