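import Pool.Agent.Lib.MP_b3fcb1_lc_proj.ConA
import Pool.Agent.Lib.MP_b3fcb1_lc_proj.ConB

/-!
# ConC (50 min): constant lags cost 8/5

`S(ρ)` = sum of the four `rc`. For all `ρ` except `0`, `1` and one more (`d/m` if `d ≤ e` ..; use: the exceptional rounds are
`0`, `1`, `min (d/m) (e/m)`, where at `ρ = max (d/m) (e/m) ≠ min` the bound `m` still holds; if this is awkward, see below)
`S(ρ) ≥ 8`, or `≥ 5` in case of resonance: `m ≤ d < L m`, `d % m ≤ 2`.
Cases (`m ≥ 5`): (0,0): `2 + 2 + 2 + 2`; `(0, e)`, `1 ≤ e < m`: `(e+2) + 1 + 1 + (e+2)`; `(d, 0)`: the same; `(1, 1)`: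
`4 + 2 + 1 + 1` (`ρ ≥ 2`); `1 ≤ d, e < m`, not both `1`: `(d + e + 2) + 3 ≥ 8`; one `≥ m`: `m + 3`; both `≥ m`: `rc_mm_large`:
`m + 3 ≥ 8` or `(d%m + e%m + 2) + 3`, which is `≥ 8` if `d%m ≥ 3`, and `≥ 5` always (then `d/m < ρ < L`, so `d < L m`).
If `d%m ≤ 2`, `d < L m`, `m ≤ d` we are in the resonance case.
The statement below allows FOUR exceptional rounds (`0`, `1`, `d/m`, `e/m`), so no care is needed: `8 (L - 4)`.
`const_avg`: for given `d` at most `3 L` values of `m` are resonant: `m = (d - a)/q`, `q = d/m ∈ [1, L)`, `a = d % m ∈ {0,1,2}`: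
`m ↦ (d / m, d % m)` is injective. So the sum of the corrections is at most `3 L * 3 L`.
-/

set_option autoImplicit false

namespace Pool.Agent.Lib.MP_b3fcb1_lc.PR

open Finset

/-- sum of the four types -/
def T4 (o : Bool) (m L d e : ℕ) : ℕ :=
  TT o m m L d e + TT o 1 1 L d e + TT o m 1 L d e + TT o 1 m L d e

/-- the cost of one round, all four types -/
def conC_S (o : Bool) (m d e ρ : ℕ) : ℕ :=
  rc o m m d e ρ + rc o 1 1 d e ρ + rc o m 1 d e ρ + rc o 1 m d e ρ

theorem conC_T4 (o : Bool) (m L d e : ℕ) : T4 o m L d e = ∑ ρ ∈ range L, conC_S o m d e ρ := by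
  unfold T4 TT conC_S
  rw [← Finset.sum_add_distrib, ← Finset.sum_add_distrib, ← Finset.sum_add_distrib]

theorem conC_round (o : Bool) {m : ℕ} (hm : 5 ≤ m) {L d e ρ : ℕ} (hρ : 2 ≤ ρ) (hρL : ρ < L)
    (h1 : ρ ≠ d / m) (h2 : ρ ≠ e / m) :
    8 ≤ conC_S o m d e ρ ∨
      ((m ≤ d ∧ d < L * m ∧ d % m ≤ 2) ∧ 5 ≤ conC_S o m d e ρ) := by
  have hm0 : 0 < m := by omega
  have g1 := rc_ge_one o (mx := 1) (my := 1) one_pos one_pos d e ρ
  have g2 := rc_ge_one o (mx := m) (my := 1) hm0 one_pos d e ρ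
  have g3 := rc_ge_one o (mx := 1) (my := m) one_pos hm0 d e ρ
  unfold conC_S
  by_cases hd : d < m
  · by_cases he : e < m
    · left
      have k1 := rc_mm_small o hd he (ρ := ρ) (by omega)
      by_cases hd0 : d = 0
      · subst hd0
        have k3 := rc_one_m o he (ρ := ρ) (by omega)
        by_cases he0 : e = 0
        · subst he0
          have k2 := rc_one_one o (d := 0) (ρ := ρ) (by omega)
          have k4 := rc_m_one o hd (ρ := ρ) (by omega)
          omega
        · omega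
      · by_cases he0 : e = 0
        · subst he0
          have k4 := rc_m_one o hd (ρ := ρ) (by omega)
          omega
        · by_cases h3 : d = 1 ∧ e = 1
          · obtain ⟨h3, h4⟩ := h3
            subst h3
            subst h4
            have k2 := rc_one_one o (d := 1) (ρ := ρ) (by omega)
            omega
          · omega
    · left
      have k1 := rc_mm_mixed o (m := m) (d := d) (e := e) (ρ := ρ) (Or.inl ⟨hd, by omega⟩)
        (by omega)
      omega
  · by_cases he : e < m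
    · left
      have k1 := rc_mm_mixed o (m := m) (d := d) (e := e) (ρ := ρ) (Or.inr ⟨by omega, he⟩)
        (by omega)
      omega
    · rcases rc_mm_large o hm0 (d := d) (e := e) (ρ := ρ) (by omega) (by omega) h1 h2 with k1 | k1
      · left
        omega
      · obtain ⟨k2, k3, k4⟩ := k1
        by_cases h5 : d % m ≤ 2
        · right
          refine ⟨⟨by omega, ?_, h5⟩, by omega⟩
          rw [← Nat.div_lt_iff_lt_mul hm0]
          omega
        · left
          omega

theorem const_ge (o : Bool) {m : ℕ} (hm : 5 ≤ m) (L d e : ℕ) :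
    8 * (L - 4) ≤ T4 o m L d e + if m ≤ d ∧ d < L * m ∧ d % m ≤ 2 then 3 * L else 0 := by
  rw [conC_T4]
  set B : Finset ℕ := {0, 1, d / m, e / m} with hB
  have hBc : B.card ≤ 4 := Finset.card_le_four
  set R := range L \ B with hR
  have hRc : L - 4 ≤ R.card := by
    have h1 := Finset.le_card_sdiff B (range L)
    rw [Finset.card_range, ← hR] at h1
    omega
  have hRm : ∀ ρ ∈ R, 2 ≤ ρ ∧ ρ < L ∧ ρ ≠ d / m ∧ ρ ≠ e / m := by
    intro ρ hρ
    rw [hR, Finset.mem_sdiff, Finset.mem_range, hB] at hρ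
    simp only [Finset.mem_insert, Finset.mem_singleton, not_or] at hρ
    obtain ⟨h1, h2, h3, h4, h5⟩ := hρ
    exact ⟨by omega, h1, h4, h5⟩
  have hsub : ∑ ρ ∈ R, conC_S o m d e ρ ≤ ∑ ρ ∈ range L, conC_S o m d e ρ :=
    Finset.sum_le_sum_of_subset Finset.sdiff_subset
  split_ifs with hres
  · have h1 : ∑ ρ ∈ R, 5 ≤ ∑ ρ ∈ R, conC_S o m d e ρ := by
      apply Finset.sum_le_sum
      intro ρ hρ
      obtain ⟨h2, h3, h4, h5⟩ := hRm ρ hρ
      rcases conC_round o hm h2 h3 h4 h5 with h6 | h6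
      · omega
      · exact h6.2
    rw [Finset.sum_const, smul_eq_mul] at h1
    omega
  · have h1 : ∑ ρ ∈ R, 8 ≤ ∑ ρ ∈ R, conC_S o m d e ρ := by
      apply Finset.sum_le_sum
      intro ρ hρ
      obtain ⟨h2, h3, h4, h5⟩ := hRm ρ hρ
      rcases conC_round o hm h2 h3 h4 h5 with h6 | h6
      · exact h6
      · exact absurd h6.1 hres
    rw [Finset.sum_const, smul_eq_mul] at h1
    omega

theorem conC_card (N L d : ℕ) :
    ((Ioc N (2 * N)).filter fun m => m ≤ d ∧ d < L * m ∧ d % m ≤ 2).card ≤ 3 * L := by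
  have h1 : ((Ioc N (2 * N)).filter fun m => m ≤ d ∧ d < L * m ∧ d % m ≤ 2).card ≤
      (range L ×ˢ range 3).card := by
    apply Finset.card_le_card_of_injOn (fun m => (d / m, d % m))
    · intro m hm
      have hm' := Finset.mem_filter.mp (Finset.mem_coe.mp hm)
      obtain ⟨h2, h3, h4, h5⟩ := hm'
      have h6 : 0 < m := by
        have := (Finset.mem_Ioc.mp h2).1
        omega
      apply Finset.mem_coe.mpr
      rw [Finset.mem_product, Finset.mem_range, Finset.mem_range]
      exact ⟨(Nat.div_lt_iff_lt_mul h6).mpr h4, by show d % m < 3; omega⟩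
    · intro m hm m' hm' heq
      have k := Finset.mem_filter.mp (Finset.mem_coe.mp hm)
      have k' := Finset.mem_filter.mp (Finset.mem_coe.mp hm')
      obtain ⟨h2, h3, h4, h5⟩ := k
      obtain ⟨h2', h3', h4', h5'⟩ := k'
      simp only [Prod.mk.injEq] at heq
      have h6 : 0 < m := by
        have := (Finset.mem_Ioc.mp h2).1
        omega
      have h7 : 0 < d / m := Nat.div_pos h3 h6
      have h8 := Nat.div_add_mod d m
      have h9 := Nat.div_add_mod d m'
      rw [← heq.1, ← heq.2] at h9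
      have h10 : m * (d / m) = m' * (d / m) := by omega
      exact Nat.eq_of_mul_eq_mul_right h7 h10
  rw [Finset.card_product, Finset.card_range, Finset.card_range] at h1
  omega

theorem const_avg (o : Bool) {N : ℕ} (hN : 4 ≤ N) (L d e : ℕ) :
    8 * (L - 4) * N ≤ ∑ m ∈ Ioc N (2 * N), T4 o m L d e + 9 * L ^ 2 := by
  have h1 : ∑ m ∈ Ioc N (2 * N), 8 * (L - 4) ≤ ∑ m ∈ Ioc N (2 * N),
      (T4 o m L d e + if m ≤ d ∧ d < L * m ∧ d % m ≤ 2 then 3 * L else 0) := by
    apply Finset.sum_le_sum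
    intro m hm
    apply const_ge
    have := (Finset.mem_Ioc.mp hm).1
    omega
  rw [Finset.sum_const, smul_eq_mul, Nat.card_Ioc, Finset.sum_add_distrib, ← Finset.sum_filter,
    Finset.sum_const, smul_eq_mul] at h1
  have h2 := conC_card N L d
  have h3 : ((Ioc N (2 * N)).filter fun m => m ≤ d ∧ d < L * m ∧ d % m ≤ 2).card * (3 * L) ≤
      3 * L * (3 * L) := Nat.mul_le_mul_right _ h2
  have h4 : (2 * N - N) * (8 * (L - 4)) = 8 * (L - 4) * N := by
    have : 2 * N - N = N := by omega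
    rw [this, mul_comm]
  have h5 : 3 * L * (3 * L) = 9 * L ^ 2 := by ring
  rw [h4] at h1
  rw [h5] at h3
  omega

end Pool.Agent.Lib.MP_b3fcb1_lc.PR
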