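import Pool.Agent.Lib.MP_b3fcb1_lc_proj.AcB

/-!
# Exp (35 min): the main cost of a pair, moment by moment

`ac S x y h (replicate k x) = #{j < k : S (replicate j x ++ h) y < S (replicate j x ++ h) x}` and
`ac S x y h (replicate k y) = 0` for `x ≠ y` (induction on `k`; better with `replicate (k + 1) = replicate k ++ [a]` and
`ac_append`). Then induction on `L` with `rds .. (L + 1) = rds .. L ++ (replicate mx x ++ replicate my y)` and `ac_append`.
-/

set_option autoImplicit false

namespace Pool.Agent.Lib.MP_b3fcb1_lc.PR

open Finset

variable {n : ℕ}

theorem ac_run (S : St n) {x y : Fin n} (hxy : x ≠ y) (h : List (Fin n)) (k : ℕ) :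
    ac S x y h (List.replicate k x) = ((range k).filter fun j =>
      S (List.replicate j x ++ h) y < S (List.replicate j x ++ h) x).card ∧
    ac S x y h (List.replicate k y) = 0 := by
  induction k with
  | zero => simp [ac]
  | succ k ih =>
    constructor
    · rw [List.replicate_succ', ac_append, ih.1, range_add_one, filter_insert]
      have e : ac S x y ((List.replicate k x).reverse ++ h) [x] =
          if S (List.replicate k x ++ h) y < S (List.replicate k x ++ h) x then 1 else 0 := by
        simp [ac]
      rw [e]
      split_ifs with h1
      · rw [card_insert_of_notMem (by simp)]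
      · rfl
    · rw [List.replicate_succ', ac_append, ih.2]
      simp [ac, hxy.symm]

theorem Exp_rds (x y : Fin n) (mx my L : ℕ) : rds x y mx my (L + 1) =
    rds x y mx my L ++ (List.replicate mx x ++ List.replicate my y) := by
  unfold rds
  rw [List.replicate_succ', List.flatten_append]
  simp

theorem pm_expand (S : St n) {x y : Fin n} (hxy : x ≠ y) (o : Bool) (rx ry mx my L : ℕ) :
    pm S x y o rx ry mx my L = ∑ ρ ∈ range L,
      (((range mx).filter fun j =>
        S (List.replicate j x ++ ((rds x y mx my ρ).reverse ++ pre2 o x y rx ry)) y <
        S (List.replicate j x ++ ((rds x y mx my ρ).reverse ++ pre2 o x y rx ry)) x).card +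
      ((range my).filter fun j =>
        S (List.replicate j y ++ (List.replicate mx x ++
          ((rds x y mx my ρ).reverse ++ pre2 o x y rx ry))) x <
        S (List.replicate j y ++ (List.replicate mx x ++
          ((rds x y mx my ρ).reverse ++ pre2 o x y rx ry))) y).card) := by
  induction L with
  | zero => simp [pm, rds, ac]
  | succ L ih =>
    rw [sum_range_succ, ← ih]
    unfold pm
    rw [Exp_rds, ac_append, ac_append, ac_append, ac_append, (ac_run S hxy _ mx).1,
      (ac_run S hxy _ my).2, (ac_run S hxy.symm _ mx).2, (ac_run S hxy.symm _ my).1,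
      List.reverse_replicate]
    omega

end Pool.Agent.Lib.MP_b3fcb1_lc.PR
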