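import Pool.Agent.Lib.MP_b3fcb1_lc_proj.AcB

/-!
# Fil (40 min): projection of the words to a pair `x < y`

`filter_pre`: `List.filter_flatMap`; for a list `l` of distinct items the filtered flatMap of `replicate` is obtained
by induction on `l` (all items of the list different from `x`, `y` contribute nothing). For `List.finRange n`: it is
sorted and without duplicates and contains `x`, `y`; e.g. write it as `l1 ++ x :: l2 ++ y :: l3` (`List.append_of_mem`,
`List.pairwise_lt_finRange`), or use that `(List.finRange n).filter (pr x y) = [x, y]` and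
`(l.flatMap f).filter = (l.filter (pr x y)).flatMap f` for these `f` (each `f a` is a `replicate` of `a`).
`main_eq`: `ac_filter`, `pr x y = pr y x`, `List.filter_reverse`.
-/

set_option autoImplicit false

namespace Pool.Agent.Lib.MP_b3fcb1_lc.PR

open Finset

variable {n : ℕ}

theorem fil_flatMap (p : Fin n → Bool) (r : Fin n → ℕ) (l : List (Fin n)) :
    (l.flatMap fun a => List.replicate (r a) a).filter p =
      (l.filter p).flatMap fun a => List.replicate (r a) a := by
  induction l with
  | nil => rfl
  | cons a l ih =>
    rw [List.flatMap_cons, List.filter_append, ih]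
    by_cases ha : p a = true
    · rw [List.filter_cons_of_pos ha, List.flatMap_cons, List.filter_replicate_of_pos ha]
    · rw [List.filter_cons_of_neg ha, List.filter_replicate_of_neg ha, List.nil_append]

theorem fil_range {x y : Fin n} (hxy : x < y) : (List.finRange n).filter (pr x y) = [x, y] := by
  have h1 : ((List.finRange n).filter (pr x y)).Pairwise (fun a b => a < b) :=
    (List.pairwise_lt_finRange n).sublist List.filter_sublist
  have h2 : [x, y].Pairwise (fun a b => a < b) := by simp [hxy]
  have h3 : ((List.finRange n).filter (pr x y)).Perm [x, y] := by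
    rw [List.perm_ext_iff_of_nodup (h1.imp (fun h => ne_of_lt h)) (h2.imp (fun h => ne_of_lt h))]
    intro a
    simp [pr]
  exact h3.eq_of_pairwise' h1 h2

theorem filter_pre {x y : Fin n} (hxy : x < y) (r : Fin n → ℕ) :
    (pre true r).filter (pr x y) = List.replicate (r x) x ++ List.replicate (r y) y ∧
    (pre false r).filter (pr x y) = List.replicate (r y) y ++ List.replicate (r x) x := by
  constructor
  · unfold pre
    rw [if_pos rfl, fil_flatMap, fil_range hxy]
    simp
  · unfold pre
    rw [if_neg (by simp), fil_flatMap, List.filter_reverse, fil_range hxy]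
    simp

theorem filter_mainW {x y : Fin n} (hxy : x < y) (mm : Fin n → ℕ) (L : ℕ) :
    (mainW mm L).filter (pr x y) = rds x y (mm x) (mm y) L := by
  unfold mainW rds
  rw [List.filter_flatten, List.map_replicate, (filter_pre hxy mm).1]

theorem fil_pre2 {x y : Fin n} (hxy : x < y) (o : Bool) (r : Fin n → ℕ) :
    (pre o r).reverse.filter (pr x y) = pre2 o x y (r x) (r y) := by
  rw [List.filter_reverse]
  cases o
  · rw [(filter_pre hxy r).2]
    simp [pre2]
  · rw [(filter_pre hxy r).1]
    simp [pre2]

theorem main_eq {S : St n} (hP : Prj S) {x y : Fin n} (hxy : x < y) (o : Bool) (r mm : Fin n → ℕ)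
    (L : ℕ) : ac S x y (pre o r).reverse (mainW mm L) + ac S y x (pre o r).reverse (mainW mm L) =
      pm S x y o (r x) (r y) (mm x) (mm y) L := by
  unfold pm
  rw [ac_filter hP x y, ac_filter hP y x, acb_pr_comm x y, fil_pre2 hxy, filter_mainW hxy]

theorem pre_eq {S : St n} (hP : Prj S) {x y : Fin n} (hxy : x < y) (r : Fin n → ℕ) :
    ac S y x [] (pre true r) = ac S y x [] (List.replicate (r x) x ++ List.replicate (r y) y) ∧
    ac S x y [] (pre false r) = ac S x y [] (List.replicate (r y) y ++ List.replicate (r x) x) := by
  constructor
  · rw [ac_filter hP y x, acb_pr_comm x y, (filter_pre hxy r).1, List.filter_nil]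
  · rw [ac_filter hP x y, (filter_pre hxy r).2, List.filter_nil]

end Pool.Agent.Lib.MP_b3fcb1_lc.PR
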