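import Pool.Agent.Lib.MP_b3fcb1_lc_proj.ConA

/-!
# LatW (50 min): `later` on the structured histories

`later y x e d (replicate k y ++ h) ↔ e < k ∨ later y x (e - k) d h`,
`later y x e d (replicate k x ++ h) ↔ ¬ d < k ∧ later y x e (d - k) h` (induction on `k`, `x ≠ y`).
`(rds x y mx my (ρ + 1)).reverse = replicate my y ++ (replicate mx x ++ (rds x y mx my ρ).reverse)`.
BASE `ρ = 0`: `later y x e d (pre2 o x y rx ry) ↔ o = true` if `d < rx`, `e < ry` (`later` of `[]` is never reached).
STEP for the full rounds (`j = 0`), `s = (ρ+1) mx`, `t = (ρ+1) my`: if `e < my` then `y` is ahead and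
`(t-1-e)/my = ρ ≥ (s-1-d)/mx`; if `e ≥ my`, `d < mx` then `x` is ahead and `(s-1-d)/mx = ρ > (t-1-e)/my`; otherwise
subtract (`Nat.sub_sub`, `Nat.add_div_right` or bounds) and use the induction hypothesis with `d - mx`, `e - my`:
`ya o mx my d e (s + mx) (t + my) ↔ ya o mx my (d - mx) (e - my) s t` in this case. Then the partial round.
-/

set_option autoImplicit false

namespace Pool.Agent.Lib.MP_b3fcb1_lc.PR

open Finset

variable {n : ℕ}

lemma later_rep_y (x y : Fin n) (e d k : ℕ) (h : List (Fin n)) :
    later y x e d (List.replicate k y ++ h) ↔ e < k ∨ later y x (e - k) d h := by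
  induction k generalizing e with
  | zero => simp
  | succ k ih =>
    rw [List.replicate_succ, List.cons_append]
    simp only [later, if_true]
    rw [ih]
    rcases Nat.eq_zero_or_pos e with h0 | h0
    · subst h0; simp
    · have h1 : e - 1 - k = e - (k + 1) := by omega
      rw [h1]
      have h2 : e ≠ 0 := by omega
      have h3 : (e - 1 < k) ↔ (e < k + 1) := by omega
      rw [h3]
      simp [h2]

lemma later_rep_x {x y : Fin n} (hxy : x ≠ y) (e d k : ℕ) (h : List (Fin n)) :
    later y x e d (List.replicate k x ++ h) ↔ ¬ d < k ∧ later y x e (d - k) h := by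
  induction k generalizing d with
  | zero => simp
  | succ k ih =>
    rw [List.replicate_succ, List.cons_append]
    simp only [later, if_neg hxy, if_true]
    rw [ih]
    have h1 : d - 1 - k = d - (k + 1) := by omega
    rw [h1]
    constructor
    · rintro ⟨a, b, c⟩
      exact ⟨by omega, c⟩
    · rintro ⟨a, c⟩
      exact ⟨by omega, by omega, c⟩

lemma rds_succ_rev (x y : Fin n) (mx my ρ : ℕ) :
    (rds x y mx my (ρ + 1)).reverse =
      List.replicate my y ++ (List.replicate mx x ++ (rds x y mx my ρ).reverse) := by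
  unfold rds
  rw [List.replicate_succ', List.flatten_append]
  simp [List.reverse_append]

lemma ya_sub {o : Bool} {mx my d e s t a b : ℕ} (hd : a ≤ d) (he : b ≤ e) :
    ya o mx my (d - a) (e - b) s t ↔ ya o mx my d e (s + a) (t + b) := by
  unfold ya
  have h1 : s - 1 - (d - a) = s + a - 1 - d := by omega
  have h2 : t - 1 - (e - b) = t + b - 1 - e := by omega
  have h3 : (e - b < t) ↔ (e < t + b) := by omega
  have h4 : (s ≤ d - a) ↔ (s + a ≤ d) := by omega
  have h5 : (t ≤ e - b) ↔ (t + b ≤ e) := by omega
  rw [h1, h2, h3, h4, h5]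

lemma later_full {x y : Fin n} (hxy : x ≠ y) (o : Bool) {mx my rx ry : ℕ} (hmx : 0 < mx)
    (hmy : 0 < my) (ρ : ℕ) : ∀ {d e : ℕ}, d < ρ * mx + rx → e < ρ * my + ry →
    (later y x e d ((rds x y mx my ρ).reverse ++ pre2 o x y rx ry) ↔
      ya o mx my d e (ρ * mx) (ρ * my)) := by
  induction ρ with
  | zero =>
    intro d e hd he
    have hr : (rds x y mx my 0).reverse = [] := by simp [rds]
    rw [hr, List.nil_append]
    have hd' : d < rx := by omega
    have he' : e < ry := by omega
    cases o with
    | true =>
      simp only [pre2, if_true]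
      rw [later_rep_y]
      constructor
      · intro _
        exact Or.inr ⟨by omega, by omega, rfl⟩
      · intro _
        exact Or.inl he'
    | false =>
      simp only [pre2]
      rw [if_neg (by decide), later_rep_x hxy]
      constructor
      · rintro ⟨a, -⟩
        exact absurd hd' a
      · rintro (⟨a, -⟩ | ⟨-, -, a⟩)
        · omega
        · exact absurd a (by decide)
  | succ ρ ih =>
    intro d e hd he
    have e1 : (ρ + 1) * mx = ρ * mx + mx := by ring
    have e2 : (ρ + 1) * my = ρ * my + my := by ring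
    rw [rds_succ_rev, List.append_assoc, List.append_assoc, later_rep_y, later_rep_x hxy]
    by_cases h1 : e < my
    · have : ya o mx my d e ((ρ + 1) * mx) ((ρ + 1) * my) :=
        ya_of hmx hmy ρ (by omega) (by intro; omega) (by omega)
      simp [h1, this]
    · by_cases h2 : d < mx
      · have : ¬ ya o mx my d e ((ρ + 1) * mx) ((ρ + 1) * my) :=
          not_ya_of hmx hmy ρ (by omega) (by intro; omega) (by omega)
        simp [h1, h2, this]
      · rw [ih (d := d - mx) (e := e - my) (by omega) (by omega),
          ya_sub (by omega) (by omega), ← e1, ← e2]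
        simp [h1, h2]

theorem later_x {x y : Fin n} (hxy : x ≠ y) (o : Bool) {mx my d e ρ j rx ry : ℕ} (hmx : 0 < mx)
    (hmy : 0 < my) (hd : d < ρ * mx + j + rx) (he : e < ρ * my + ry) :
    later y x e d (List.replicate j x ++ ((rds x y mx my ρ).reverse ++ pre2 o x y rx ry)) ↔
      ya o mx my d e (ρ * mx + j) (ρ * my) := by
  rw [later_rep_x hxy]
  by_cases h1 : d < j
  · have : ¬ ya o mx my d e (ρ * mx + j) (ρ * my) :=
      not_ya_of hmx hmy ρ (by omega) (by intro; omega) (by omega)
    simp [h1, this]
  · rw [later_full hxy o hmx hmy ρ (by omega) he]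
    have := ya_sub (o := o) (mx := mx) (my := my) (d := d) (e := e) (s := ρ * mx) (t := ρ * my)
      (a := j) (b := 0) (by omega) (by omega)
    rw [Nat.sub_zero, Nat.add_zero] at this
    rw [this]
    simp [h1]

theorem later_y {x y : Fin n} (hxy : x ≠ y) (o : Bool) {mx my d e ρ j rx ry : ℕ} (hmx : 0 < mx)
    (hmy : 0 < my) (hd : d < (ρ + 1) * mx + rx) (he : e < ρ * my + j + ry) :
    later y x e d (List.replicate j y ++ (List.replicate mx x ++
      ((rds x y mx my ρ).reverse ++ pre2 o x y rx ry))) ↔
      ya o mx my d e ((ρ + 1) * mx) (ρ * my + j) := by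
  have e1 : (ρ + 1) * mx = ρ * mx + mx := by ring
  rw [later_rep_y, later_rep_x hxy]
  by_cases h1 : e < j
  · have : ya o mx my d e ((ρ + 1) * mx) (ρ * my + j) :=
      ya_of hmx hmy ρ (by omega) (by intro; omega) (by omega)
    simp [h1, this]
  · by_cases h2 : d < mx
    · have : ¬ ya o mx my d e ((ρ + 1) * mx) (ρ * my + j) :=
        not_ya_of hmx hmy ρ (by omega) (by intro; omega) (by omega)
      simp [h1, h2, this]
    · rw [later_full hxy o hmx hmy ρ (by omega) (by omega), ya_sub (by omega) (by omega), ← e1]
      simp [h1, h2]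

end Pool.Agent.Lib.MP_b3fcb1_lc.PR
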