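import Pool.Agent.Lib.MP_b3fcb1_lc_proj.Base

/-!
# Marg (45 min): averages

`av_marg`: for `x ≠ y` the map `r ↦ (r x, r y)` has fibres of the same size: e.g.
`∑ r, f (r x) (r y) = ∑ i, ∑ j, ∑ r with r x = i ∧ r y = j, f i j` and the fibre is in bijection with the functions on
the other items; or by `Equiv.funSplitAt`-type equivalences `(Fin n → κ) ≃ κ × ({a // a ≠ x} → κ)` applied twice; or
`Fintype.piFinset` with `if a = x then {i} else if a = y then {j} else univ` (`Fintype.card_piFinset`, `Finset.prod_ite`).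
-/

set_option autoImplicit false

namespace Pool.Agent.Lib.MP_b3fcb1_lc.PR

open Finset

variable {n : ℕ} {α β κ : Type} [Fintype α] [Fintype β] [Fintype κ]

theorem av_mono {f g : α → ℝ} (h : ∀ a, f a ≤ g a) : av f ≤ av g := by
  unfold av
  exact div_le_div_of_nonneg_right (Finset.sum_le_sum fun a _ => h a) (Nat.cast_nonneg _)

theorem av_add (f g : α → ℝ) : av (fun a => f a + g a) = av f + av g := by
  unfold av
  rw [Finset.sum_add_distrib, add_div]

theorem av_mul (c : ℝ) (f : α → ℝ) : av (fun a => c * f a) = c * av f := by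
  unfold av
  rw [← Finset.mul_sum, mul_div_assoc]

theorem av_const [Nonempty α] (c : ℝ) : av (fun _ : α => c) = c := by
  unfold av
  rw [Finset.sum_const, Finset.card_univ, nsmul_eq_mul]
  have h : (Fintype.card α : ℝ) ≠ 0 := Nat.cast_ne_zero.mpr Fintype.card_ne_zero
  field_simp

theorem av_sum {ι : Type} (s : Finset ι) (f : ι → α → ℝ) :
    av (fun a => ∑ i ∈ s, f i a) = ∑ i ∈ s, av (f i) := by
  unfold av
  rw [Finset.sum_comm, Finset.sum_div]

theorem av_prod (f : α × β → ℝ) : av f = av (fun a => av (fun b => f (a, b))) := by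
  unfold av
  rw [Fintype.sum_prod_type, Fintype.card_prod, ← Finset.sum_div, div_div, Nat.cast_mul, mul_comm]

theorem av_comm (f : α → β → ℝ) : av (fun a => av (fun b => f a b)) =
    av (fun b => av (fun a => f a b)) := by
  unfold av
  rw [← Finset.sum_div, ← Finset.sum_div, div_div, div_div, Finset.sum_comm, mul_comm]

theorem av_bool (f : Bool → ℝ) : av f = (f true + f false) / 2 := by
  unfold av
  rw [Fintype.sum_bool, Fintype.card_bool]
  norm_num

theorem av_fin (M : ℕ) (f : ℕ → ℝ) : av (fun i : Fin M => f ((i : ℕ) + 1)) =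
    (∑ i ∈ Icc 1 M, f i) / M := by
  unfold av
  rw [Fintype.card_fin, Fin.sum_univ_eq_sum_range (fun i => f (i + 1)) M]
  congr 1
  have h : Icc 1 M = Ico 1 (M + 1) := by
    ext i
    simp only [Finset.mem_Icc, Finset.mem_Ico]
    omega
  rw [h, Finset.sum_Ico_eq_sum_range]
  apply Finset.sum_congr
  · rw [Nat.add_sub_cancel]
  · intro i _
    rw [add_comm]

theorem av_fin' (N : ℕ) (f : ℕ → ℝ) : av (fun i : Fin N => f (N + 1 + (i : ℕ))) =
    (∑ m ∈ Ioc N (2 * N), f m) / N := by
  unfold av
  rw [Fintype.card_fin, Fin.sum_univ_eq_sum_range (fun i => f (N + 1 + i)) N]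
  congr 1
  have h : Ioc N (2 * N) = Ico (N + 1) (2 * N + 1) := by
    ext i
    simp only [Finset.mem_Ioc, Finset.mem_Ico]
    omega
  rw [h, Finset.sum_Ico_eq_sum_range]
  apply Finset.sum_congr
  · congr 1
    omega
  · intro i _
    rfl

theorem marg_equiv (e : α ≃ β) (f : β → ℝ) : av (fun a => f (e a)) = av f := by
  unfold av
  rw [Fintype.card_congr e, Equiv.sum_comp e f]

theorem marg_eval {ι : Type} [Fintype ι] [DecidableEq ι] [Nonempty κ] (x : ι) (g : κ → ℝ) :
    av (fun r : ι → κ => g (r x)) = av g := by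
  have h1 := marg_equiv (Equiv.funSplitAt x κ)
    (fun p : κ × ({j : ι // j ≠ x} → κ) => g p.1)
  have h2 : (fun r : ι → κ => g (r x)) =
      fun r => (fun p : κ × ({j : ι // j ≠ x} → κ) => g p.1) (Equiv.funSplitAt x κ r) := by
    funext r
    rfl
  rw [h2, h1, av_prod]
  congr 1
  funext a
  exact av_const (g a)

theorem av_marg {x y : Fin n} (hxy : x ≠ y) (f : κ → κ → ℝ) :
    av (fun r : Fin n → κ => f (r x) (r y)) = av (fun i => av (fun j => f i j)) := by
  rcases isEmpty_or_nonempty κ with hk | hk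
  · have : IsEmpty (Fin n → κ) := ⟨fun r => hk.elim (r x)⟩
    unfold av
    simp
  · have h1 := marg_equiv (Equiv.funSplitAt x κ)
      (fun p : κ × ({j : Fin n // j ≠ x} → κ) => f p.1 (p.2 ⟨y, hxy.symm⟩))
    have h2 : (fun r : Fin n → κ => f (r x) (r y)) =
        fun r => (fun p : κ × ({j : Fin n // j ≠ x} → κ) => f p.1 (p.2 ⟨y, hxy.symm⟩))
          (Equiv.funSplitAt x κ r) := by
      funext r
      rfl
    rw [h2, h1, av_prod]
    congr 1
    funext a
    exact marg_eval _ (fun j => f a j)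

end Pool.Agent.Lib.MP_b3fcb1_lc.PR
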