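import Pool.Agent.Lib.MP_b3fcb1_lc_proj.Opt1
import Pool.Agent.Lib.MP_b3fcb1_lc_proj.Marg

/-!
# Opt2 (35 min): average offline cost of a phase

Length of `pre o r` is `∑ r a ≤ n M` (`r a ≤ M`), length of `mainW mm L` is `L ∑ mm a ≤ L n 2 N`. The average over `X` of
`if X x ∧ X y then 2 else 1` is `5/4` for `x ≠ y` (`av_prod`, `av_marg` with `κ = Bool`, `av_bool`, `av_sum`, `av_const`).
-/

set_option autoImplicit false

namespace Pool.Agent.Lib.MP_b3fcb1_lc.PR

open Finset

variable {n : ℕ}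

lemma opt2_len_pre (o : Bool) (r : Fin n → ℕ) : (pre o r).length = ∑ a, r a := by
  unfold pre
  rw [List.length_flatMap]
  simp only [List.length_replicate]
  rw [Fin.sum_univ_def]
  split_ifs
  · rfl
  · rw [List.map_reverse, List.sum_reverse]

lemma opt2_len_main (mm : Fin n → ℕ) (L : ℕ) : (mainW mm L).length = L * ∑ a, mm a := by
  unfold mainW
  rw [List.length_flatten, List.map_replicate, List.sum_replicate, opt2_len_pre, smul_eq_mul]

lemma opt2_len_wd (L : ℕ) {M N : ℕ} (ι : Ix n M N) :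
    (wd L ι).length ≤ n * M + 2 * n * N * L := by
  unfold wd
  rw [List.length_append, opt2_len_pre, opt2_len_main]
  have h1 : ∑ a : Fin n, ((ι.2.1 a : ℕ) + 1) ≤ n * M := by
    calc ∑ a : Fin n, ((ι.2.1 a : ℕ) + 1) ≤ ∑ _a : Fin n, M :=
          sum_le_sum fun a _ => (ι.2.1 a).isLt
      _ = n * M := by rw [sum_const, card_univ, Fintype.card_fin, smul_eq_mul]
  have h2 : ∑ a : Fin n, mlt ι.2.2.1 (N + 1 + (ι.2.2.2 : ℕ)) a ≤ n * (2 * N) := by
    calc ∑ a : Fin n, mlt ι.2.2.1 (N + 1 + (ι.2.2.2 : ℕ)) a ≤ ∑ _a : Fin n, 2 * N := by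
          refine sum_le_sum fun a _ => ?_
          have h3 := ι.2.2.2.isLt
          unfold mlt
          split_ifs <;> omega
      _ = n * (2 * N) := by rw [sum_const, card_univ, Fintype.card_fin, smul_eq_mul]
  calc _ ≤ n * M + L * (n * (2 * N)) := Nat.add_le_add h1 (Nat.mul_le_mul_left L h2)
    _ = n * M + 2 * n * N * L := by ring

lemma opt2_av_X {M N : ℕ} (hM : 0 < M) (hN : 0 < N) (g : (Fin n → Bool) → ℝ) :
    av (fun ι : Ix n M N => g ι.2.2.1) = av g := by
  have : Nonempty (Fin M) := ⟨⟨0, hM⟩⟩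
  have : Nonempty (Fin N) := ⟨⟨0, hN⟩⟩
  rw [av_prod]
  simp only [av_const]
  rw [av_prod]
  simp only [av_const]
  rw [av_prod]
  simp only [av_const]

lemma opt2_pair {x y : Fin n} (hxy : x ≠ y) :
    av (fun X : Fin n → Bool => (if X x = true ∧ X y = true then (2 : ℝ) else 1)) = 5 / 4 := by
  rw [av_marg hxy (fun i j : Bool => if i = true ∧ j = true then (2 : ℝ) else 1)]
  rw [av_bool, av_bool, av_bool]
  norm_num

theorem av_cst (L : ℕ) {M N : ℕ} (hM : 0 < M) (hN : 0 < N) :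
    av (fun ι : Ix n M N => (cst L ι : ℝ)) ≤
      2 * (n * M + 2 * n * N * L) + n * (n - 1) * (4 + 5 / 4 * L) := by
  have : Nonempty (Fin M) := ⟨⟨0, hM⟩⟩
  have : Nonempty (Fin N) := ⟨⟨0, hN⟩⟩
  have h1 : ∀ ι : Ix n M N, (cst L ι : ℝ) ≤ 2 * (n * M + 2 * n * N * L) +
      ∑ x : Fin n, ∑ y : Fin n, (if x = y then (0 : ℝ) else
        4 + L * (if ι.2.2.1 x = true ∧ ι.2.2.1 y = true then (2 : ℝ) else 1)) := by
    intro ι
    have h2 : ((wd L ι).length : ℝ) ≤ n * M + 2 * n * N * L := by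
      exact_mod_cast opt2_len_wd L ι
    have h3 : (cst L ι : ℝ) = 2 * ((wd L ι).length : ℝ) +
      ∑ x : Fin n, ∑ y : Fin n, (if x = y then (0 : ℝ) else
        4 + L * (if ι.2.2.1 x = true ∧ ι.2.2.1 y = true then (2 : ℝ) else 1)) := by
      unfold cst
      push_cast
      rfl
    rw [h3]
    linarith
  refine (av_mono h1).trans ?_
  rw [av_add, av_const, av_sum]
  have h4 : ∀ x : Fin n, av (fun ι : Ix n M N => ∑ y : Fin n, (if x = y then (0 : ℝ) else
        4 + L * (if ι.2.2.1 x = true ∧ ι.2.2.1 y = true then (2 : ℝ) else 1))) =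
      (n - 1) * (4 + 5 / 4 * L) := by
    intro x
    rw [av_sum]
    have h5 : ∀ y : Fin n, av (fun ι : Ix n M N => (if x = y then (0 : ℝ) else
        4 + L * (if ι.2.2.1 x = true ∧ ι.2.2.1 y = true then (2 : ℝ) else 1))) =
        (4 + 5 / 4 * L) - (if x = y then (4 + 5 / 4 * L : ℝ) else 0) := by
      intro y
      by_cases hxy : x = y
      · simp only [if_pos hxy]
        rw [av_const]
        ring
      · simp only [if_neg hxy]
        rw [av_add, av_const, av_mul, opt2_av_X hM hN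
          (fun X => (if X x = true ∧ X y = true then (2 : ℝ) else 1)), opt2_pair hxy]
        ring
    rw [sum_congr rfl fun y _ => h5 y, sum_sub_distrib, sum_ite_eq, if_pos (mem_univ _), sum_const,
      card_univ, Fintype.card_fin, nsmul_eq_mul]
    ring
  rw [sum_congr rfl fun x _ => h4 x, sum_const, card_univ, Fintype.card_fin, nsmul_eq_mul]
  apply le_of_eq
  ring

end Pool.Agent.Lib.MP_b3fcb1_lc.PR
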