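import Mathlib

/-!
# Par (40 min, only Mathlib): choice of the parameters

`N = L^2`, `Q = 8 L`, `K = L^4`, `M = L^4 + 8 L`: the left factor is `(8 (L-4) L^2 - 9 L^2)/(4 L^2) = 2 L - 41/4`,
`(K - 2 N L)/M = (L^4 - 2 L^3)/(L^4 + 8 L) → 1`, so `τ κ^2 / (4 + 5/4 L) → 8/5 > C` for `L → ∞`: fix `L ≥ 5` with
`τ κ^2 > C (4 + 5/4 L)` (and `9 L^2 ≤ 8 (L-4) L^2` etc.). Then for large `n`: divide by `n^2 / 2`: `(n-1)(n-2)/n^2 → 1`,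
`(n M + 2 n N L)/n^2 → 0` (Tendsto, or explicit: a polynomial in `n` of degree 2 with positive leading coefficient).
-/

set_option autoImplicit false

namespace Pool.Agent.Lib.MP_b3fcb1_lc.PR

theorem par_kappa {x : ℝ} (hx : 6 ≤ x) :
    1 - 3 / x ≤ (x ^ 4 - 2 * x ^ 2 * x) / (x ^ 4 + 8 * x) := by
  have h0 : 0 < x := by linarith
  rw [le_div_iff₀ (by positivity)]
  have h1 : (1 - 3 / x) * (x ^ 4 + 8 * x) = x ^ 4 + 8 * x - 3 * x ^ 3 - 24 := by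
    field_simp
    ring
  rw [h1]
  nlinarith [mul_pos h0 h0, mul_nonneg h0.le (sub_nonneg.mpr hx),
    mul_nonneg (mul_nonneg h0.le h0.le) (sub_nonneg.mpr hx)]

theorem par_main {C x : ℝ} (hC1 : 1 ≤ C) (hC : C < 8 / 5) (hx : 6 ≤ x)
    (hx2 : 29 < (2 - 5 / 4 * C) * x) :
    C * (4 + 5 / 4 * x) < (8 * (x - 4) * x ^ 2 - 9 * x ^ 2) / (4 * x ^ 2) *
      ((x ^ 4 - 2 * x ^ 2 * x) / (x ^ 4 + 8 * x)) ^ 2 := by
  have h0 : 0 < x := by linarith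
  have h1 : (8 * (x - 4) * x ^ 2 - 9 * x ^ 2) / (4 * x ^ 2) = 2 * x - 41 / 4 := by
    field_simp; ring
  rw [h1]
  have h2 := par_kappa hx
  have h3 : 3 / x ≤ 1 / 2 := by rw [div_le_iff₀ h0]; linarith
  have h4 : (1 - 3 / x) ^ 2 ≤ ((x ^ 4 - 2 * x ^ 2 * x) / (x ^ 4 + 8 * x)) ^ 2 :=
    pow_le_pow_left₀ (by linarith) h2 2
  have h5 : 1 - 6 / x ≤ (1 - 3 / x) ^ 2 := by
    have : (1 - 3 / x) ^ 2 = 1 - 6 / x + (3 / x) ^ 2 := by ring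
    rw [this]
    have := sq_nonneg (3 / x)
    linarith
  have h6 : 0 ≤ 2 * x - 41 / 4 := by linarith
  have h7 : (2 * x - 41 / 4) * (1 - 6 / x) ≤ (2 * x - 41 / 4) *
      ((x ^ 4 - 2 * x ^ 2 * x) / (x ^ 4 + 8 * x)) ^ 2 :=
    mul_le_mul_of_nonneg_left (h5.trans h4) h6
  have h8 : (2 * x - 41 / 4) * (1 - 6 / x) = 2 * x - 41 / 4 - 12 + 41 / 4 * (6 / x) := by
    field_simp; ring
  have h9 : 0 < 6 / x := by positivity
  nlinarith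

theorem par_n {C g a b B : ℝ} (hC : 0 ≤ C) (hB : 0 ≤ B) (ha : 0 ≤ a) (hg : 0 < g)
    (hab : g = a - C * b) : ∃ n0 : ℕ, ∀ n : ℕ, n0 ≤ n →
      C * (n * B + n * (n - 1) / 2 * b) < a * ((n - 1) * (n - 2) / 2) := by
  obtain ⟨n0, hn0⟩ := exists_nat_gt ((4 * C * B + 2 * a) / g)
  refine ⟨n0 + 2, fun n hn => ?_⟩
  have hn' : ((n0 : ℝ) + 2) ≤ n := by exact_mod_cast hn
  have h1 : (4 * C * B + 2 * a) < g * n := by
    rw [div_lt_iff₀ hg] at hn0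
    nlinarith
  have hnn : (0 : ℝ) ≤ n0 := Nat.cast_nonneg _
  have h2 : (2 : ℝ) ≤ n := by linarith
  have h3 : a * ((n - 1) * (n - 2) / 2) - C * (n * B + n * (n - 1) / 2 * b)
      = ((n : ℝ) - 1) / 2 * (g * n - 2 * a) - C * n * B := by
    rw [hab]; ring
  have h4 : 0 < ((n : ℝ) - 1) / 2 * (g * n - 2 * a) - C * n * B := by
    have h5 : 4 * C * B < g * n - 2 * a := by linarith
    have h6 : 0 ≤ C * B := mul_nonneg hC hB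
    have h7 : (n : ℝ) / 4 ≤ (n - 1) / 2 := by linarith
    have h8 : (n : ℝ) / 4 * (4 * C * B) < (n : ℝ) / 4 * (g * n - 2 * a) :=
      mul_lt_mul_of_pos_left h5 (by linarith)
    have h9 : (n : ℝ) / 4 * (g * n - 2 * a) ≤ (n - 1) / 2 * (g * n - 2 * a) :=
      mul_le_mul_of_nonneg_right h7 (by linarith)
    have h10 : (n : ℝ) / 4 * (4 * C * B) = C * n * B := by ring
    linarith
  linarith

theorem param {C : ℝ} (hC : C < 8 / 5) : ∃ (N L Q K M : ℕ), K + Q = M ∧ 0 < K ∧ 8 * L ≤ Q ∧ 4 ≤ N ∧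
    4 ≤ L ∧ 2 * N * L ≤ K ∧ 9 * L ^ 2 ≤ 8 * (L - 4) * N ∧ ∃ n0 : ℕ, ∀ n : ℕ, n0 ≤ n →
    C * ((n * M + 2 * n * N * L) + n * (n - 1) / 2 * (4 + 5 / 4 * L)) <
    (8 * ((L : ℝ) - 4) * N - 9 * L ^ 2) / (4 * N) * (((K : ℝ) - 2 * N * L) / M) ^ 2 *
      ((n - 1) * (n - 2) / 2) := by
  set D : ℝ := max C 1 with hD
  have hD1 : 1 ≤ D := le_max_right _ _
  have hDC : C ≤ D := le_max_left _ _
  have hD2 : D < 8 / 5 := max_lt hC (by norm_num)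
  obtain ⟨L0, hL0⟩ := exists_nat_gt (29 / (2 - 5 / 4 * D))
  have hpos : 0 < 2 - 5 / 4 * D := by linarith
  obtain ⟨L, hL6, hL1⟩ : ∃ L : ℕ, 6 ≤ L ∧ 29 < (2 - 5 / 4 * D) * (L : ℝ) := by
    refine ⟨L0 + 6, by omega, ?_⟩
    rw [div_lt_iff₀ hpos] at hL0
    push_cast
    nlinarith
  have hL6' : (6 : ℝ) ≤ L := by exact_mod_cast hL6
  have hm := par_main hD1 hD2 hL6' hL1
  refine ⟨L ^ 2, L, 8 * L, L ^ 4, L ^ 4 + 8 * L, rfl, by positivity, le_rfl, ?_, by omega, ?_, ?_, ?_⟩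
  · nlinarith
  · calc 2 * L ^ 2 * L = L ^ 3 * 2 := by ring
      _ ≤ L ^ 3 * L := Nat.mul_le_mul_left _ (by omega)
      _ = L ^ 4 := by ring
  · apply Nat.mul_le_mul_right
    omega
  · push_cast
    set a : ℝ := (8 * ((L : ℝ) - 4) * (L : ℝ) ^ 2 - 9 * (L : ℝ) ^ 2) / (4 * (L : ℝ) ^ 2) *
      (((L : ℝ) ^ 4 - 2 * (L : ℝ) ^ 2 * L) / ((L : ℝ) ^ 4 + 8 * L)) ^ 2 with ha
    have hb : 0 ≤ (4 + 5 / 4 * (L : ℝ)) := by positivity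
    have hapos : 0 ≤ a := by
      have : 0 ≤ D * (4 + 5 / 4 * (L : ℝ)) := by positivity
      linarith
    obtain ⟨n0, hn0⟩ := par_n (C := D) (g := a - D * (4 + 5 / 4 * (L : ℝ))) (a := a)
      (b := 4 + 5 / 4 * (L : ℝ)) (B := (L : ℝ) ^ 4 + 8 * L + 2 * (L : ℝ) ^ 2 * L)
      (by linarith) (by positivity) hapos (by linarith) rfl
    refine ⟨n0 + 1, fun n hn => ?_⟩
    have h1 := hn0 n (by omega)
    have hn1 : (1 : ℝ) ≤ n := by exact_mod_cast (by omega : 1 ≤ n)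
    have hX : 0 ≤ ((n : ℝ) * ((L : ℝ) ^ 4 + 8 * L) + 2 * n * (L : ℝ) ^ 2 * L) +
        n * (n - 1) / 2 * (4 + 5 / 4 * L) := by
      have : (0 : ℝ) ≤ (n : ℝ) - 1 := by linarith
      positivity
    calc C * (((n : ℝ) * ((L : ℝ) ^ 4 + 8 * L) + 2 * n * (L : ℝ) ^ 2 * L) +
          n * (n - 1) / 2 * (4 + 5 / 4 * L))
        ≤ D * (((n : ℝ) * ((L : ℝ) ^ 4 + 8 * L) + 2 * n * (L : ℝ) ^ 2 * L) +
          n * (n - 1) / 2 * (4 + 5 / 4 * L)) := mul_le_mul_of_nonneg_right hDC hX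
      _ = D * ((n : ℝ) * ((L : ℝ) ^ 4 + 8 * L + 2 * (L : ℝ) ^ 2 * L) +
          n * (n - 1) / 2 * (4 + 5 / 4 * L)) := by ring
      _ < _ := h1

end Pool.Agent.Lib.MP_b3fcb1_lc.PR
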