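import Pool.Agent.Lib.MP_b3fcb1_lc.Lower
import Pool.Agent.Lib.MP_b3fcb1_lc_proj.AcB
import Pool.Agent.Lib.MP_b3fcb1_lc_proj.Marg

/-!
# Play (75 min): many phases in a row, expectation

`pl K F` = average of `F` over the lists of `K` indices. See `Gadget.play` and `lower_bound_of` in
Lib/MP_b3fcb1_lc (Play.lean, Lower.lean), copy: `play_mono`, `play_add`, `play_mul`, `play_const`, `play_integrable`.
LOWER: `K LB ≤ pl K (fun l => AC S h (l.flatMap W))` by induction for all `h` (`AC_append`, `AC_shift`, `Inj.shift`,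
`Prj.shift`). UPPER: `Off (l.flatMap W) (l.map c).sum` (`po_append` at `idx`), and
`Off w c → 2 opt π w ≤ c + n ^ 2` (`opt_le` with `e = idx`, first move to `idx`: `fl ≤ 1`). Then as in `lower_bound_of` with
`integral_mono_ae` (`hA π : ∀ᵐ ω, IsProjective ..`), `prj_listAfter`, `inj_listAfter`, `cost_ge_AC`, `measurable_costFrom`.
-/

set_option autoImplicit false

namespace Pool.Agent.Lib.MP_b3fcb1_lc.PR

open Finset MeasureTheory

variable {n : ℕ}

/-- Average over all lists of `K` indices. -/
noncomputable def playK {α : Type} [Fintype α] : ℕ → (List α → ℝ) → ℝ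
  | 0, F => F []
  | K + 1, F => av (fun a => playK K (fun l => F (a :: l)))

section
variable {α : Type} [Fintype α]

theorem playK_mono (K : ℕ) : ∀ (F F' : List α → ℝ), (∀ l, F l ≤ F' l) → playK K F ≤ playK K F' := by
  induction K with
  | zero => intro F F' h; exact h []
  | succ K ih =>
    intro F F' h
    simp only [playK]
    exact av_mono fun a => ih _ _ fun l => h (a :: l)

theorem playK_add (K : ℕ) : ∀ (F F' : List α → ℝ),
    playK K (fun l => F l + F' l) = playK K F + playK K F' := by
  induction K with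
  | zero => intro F F'; rfl
  | succ K ih =>
    intro F F'
    simp only [playK, ih]
    exact av_add _ _

theorem playK_mul (K : ℕ) (c : ℝ) : ∀ (F : List α → ℝ),
    playK K (fun l => c * F l) = c * playK K F := by
  induction K with
  | zero => intro F; rfl
  | succ K ih =>
    intro F
    simp only [playK, ih]
    exact av_mul _ _

theorem playK_const [Nonempty α] (K : ℕ) (c : ℝ) : playK K (fun _ : List α => c) = c := by
  induction K with
  | zero => rfl
  | succ K ih =>
    simp only [playK, ih]
    exact av_const _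

theorem playK_sum [Nonempty α] (K : ℕ) (c : α → ℕ) :
    playK K (fun l => (((l.map c).sum : ℕ) : ℝ)) = K * av (fun i => (c i : ℝ)) := by
  induction K with
  | zero => simp [playK]
  | succ K ih =>
    simp only [playK, List.map_cons, List.sum_cons, Nat.cast_add]
    have h1 : ∀ a : α, playK K (fun l => (c a : ℝ) + (((l.map c).sum : ℕ) : ℝ)) =
        (c a : ℝ) + K * av (fun i => (c i : ℝ)) := by
      intro a
      rw [playK_add K (fun _ => (c a : ℝ)) (fun l => (((l.map c).sum : ℕ) : ℝ)), playK_const, ih]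
    simp only [h1]
    rw [av_add, av_const]
    push_cast
    ring

theorem playK_integrable {Ω : Type*} {mΩ : MeasurableSpace Ω} {μ : Measure Ω} (K : ℕ) :
    ∀ (f : Ω → List α → ℝ), (∀ l, Integrable (fun ω => f ω l) μ) →
    Integrable (fun ω => playK K (f ω)) μ ∧
      ∫ ω, playK K (f ω) ∂μ = playK K (fun l => ∫ ω, f ω l ∂μ) := by
  induction K with
  | zero => intro f hf; exact ⟨hf [], rfl⟩
  | succ K ih =>
    intro f hf
    have h1 : ∀ a : α, Integrable (fun ω => playK K (fun l => f ω (a :: l))) μ ∧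
        ∫ ω, playK K (fun l => f ω (a :: l)) ∂μ = playK K (fun l => ∫ ω, f ω (a :: l) ∂μ) :=
      fun a => ih (fun ω l => f ω (a :: l)) (fun l => hf _)
    simp only [playK, av]
    refine ⟨(integrable_finsetSum _ fun a _ => (h1 a).1).div_const _, ?_⟩
    rw [integral_div, integral_finsetSum _ (fun a _ => (h1 a).1)]
    congr 1
    exact Finset.sum_congr rfl fun a _ => (h1 a).2

theorem playK_low [Nonempty α] (W : α → List (Fin n)) {LB : ℝ}
    (hLB : ∀ S : St n, Inj S → Prj S → LB ≤ av (fun i => (AC S [] (W i) : ℝ)))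
    {S : St n} (hS : Inj S) (hP : Prj S) (K : ℕ) : ∀ h : List (Fin n),
    K * LB ≤ playK K (fun l => (AC S h (l.flatMap W) : ℝ)) := by
  induction K with
  | zero =>
    intro h
    simp only [playK, Nat.cast_zero, zero_mul]
    exact Nat.cast_nonneg _
  | succ K ih =>
    intro h
    simp only [playK, List.flatMap_cons, AC_append, Nat.cast_add]
    have h1 : ∀ a : α, (AC S h (W a) : ℝ) + K * LB ≤
        playK K (fun l => (AC S h (W a) : ℝ) + (AC S ((W a).reverse ++ h) (l.flatMap W) : ℝ)) := by
      intro a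
      rw [playK_add K (fun _ => (AC S h (W a) : ℝ))
        (fun l => (AC S ((W a).reverse ++ h) (l.flatMap W) : ℝ)), playK_const]
      have := ih ((W a).reverse ++ h)
      linarith
    refine le_trans ?_ (av_mono h1)
    rw [av_add, av_const]
    have h2 := hLB (fun h' => S (h' ++ h)) (hS.shift h) (hP.shift h)
    simp only [AC_shift, List.nil_append] at h2
    push_cast
    linarith

theorem play_off_append {w w' : List (Fin n)} {c c' : ℕ} (h : Off w c) (h' : Off w' c') :
    Off (w ++ w') (c + c') := by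
  obtain ⟨LP, h1, h2, h3⟩ := h
  obtain ⟨LP', h1', h2', h3'⟩ := h'
  refine ⟨LP ++ LP', ?_, ?_, ?_⟩
  · rw [List.map_append, h1, h1']
  · intro p hp
    rcases List.mem_append.mp hp with hp | hp
    · exact h2 p hp
    · exact h2' p hp
  · have h4 : ∑ x, ∑ y, po x y idx (LP ++ LP') idx ≤
        (∑ x, ∑ y, po x y idx LP idx) + ∑ x : Fin n, ∑ y, po x y idx LP' idx := by
      rw [← Finset.sum_add_distrib]
      apply Finset.sum_le_sum
      intro x _
      rw [← Finset.sum_add_distrib]
      apply Finset.sum_le_sum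
      intro y _
      exact po_append x y idx idx LP LP' idx
    rw [List.length_append]
    omega

theorem play_off_flat (W : α → List (Fin n)) (c : α → ℕ) (hOff : ∀ i, Off (W i) (c i))
    (l : List α) : Off (l.flatMap W) (l.map c).sum := by
  induction l with
  | nil =>
    refine ⟨[], rfl, by simp, ?_⟩
    have : ∑ x : Fin n, ∑ y : Fin n, po x y idx [] idx = 0 := by
      apply Finset.sum_eq_zero
      intro x _
      apply Finset.sum_eq_zero
      intro y _
      exact fl_same _ _ _
    simp [this]
  | cons a l ih =>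
    rw [List.flatMap_cons, List.map_cons, List.sum_cons]
    exact play_off_append (hOff a) ih

theorem play_opt_off (π : ItemList n) {w : List (Fin n)} {c : ℕ} (h : Off w c) :
    2 * opt π w ≤ c + n ^ 2 := by
  obtain ⟨LP, h1, h2, h3⟩ := h
  have h4 := opt_le π LP idx h2
  rw [h1] at h4
  have h5 : ∑ x, ∑ y, po x y (key π) LP idx ≤
      n ^ 2 + ∑ x : Fin n, ∑ y, po x y idx LP idx := by
    have h6 : (n : ℕ) ^ 2 = ∑ x : Fin n, ∑ y : Fin n, 1 := by simp [sq]
    rw [h6, ← Finset.sum_add_distrib]
    apply Finset.sum_le_sum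
    intro x _
    rw [← Finset.sum_add_distrib]
    apply Finset.sum_le_sum
    intro y _
    have h7 := po_start x y (key π) idx LP idx
    have h8 := fl_le_one (key π) idx x y
    omega
  omega

end

theorem play_final {α : Type} [Fintype α] [Nonempty α] (W : α → List (Fin n)) (c : α → ℕ)
    (hOff : ∀ i, Off (W i) (c i)) {LB UB C : ℝ}
    (hLB : ∀ S : St n, Inj S → Prj S → LB ≤ av (fun i => (AC S [] (W i) : ℝ)))
    (hUB : av (fun i => (c i : ℝ)) ≤ 2 * UB) (hC : 0 ≤ C) (hlt : C * UB < LB)
    (A : RandAlg n) (hA : A.Projective) (π : ItemList n) (a : ℝ) :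
    ∃ σ : List (Fin n), ENNReal.ofReal (C * opt π σ + a) < A.expCost π σ := by
  by_contra hcon
  push Not at hcon
  let _ := A.mΩ
  have _ := A.prob
  set f : A.Ω → List α → ℝ :=
    fun ω l => (costFrom (A.resp ω π) [] π (l.flatMap W) : ℝ) with hf
  have hmeas : ∀ w : List (Fin n), Measurable (fun ω => costFrom (A.resp ω π) [] π w) := fun w =>
    measurable_costFrom (fun ω => A.resp ω π) (fun h => A.meas π h) w [] (fun _ => π)
      (@measurable_const _ _ ⊤ _ _)
  have hmeasR : ∀ l, Measurable (fun ω => f ω l) := fun l =>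
    (Measurable.of_discrete (f := fun m : ℕ => (m : ℝ))).comp (hmeas _)
  have hbound : ∀ l, ∫⁻ ω, ENNReal.ofReal (f ω l) ∂A.μ ≤
      ENNReal.ofReal (C * opt π (l.flatMap W) + |a|) := by
    intro l
    have h1 := hcon (l.flatMap W)
    unfold RandAlg.expCost at h1
    have h2 : ∀ ω, ENNReal.ofReal (f ω l) =
        (costFrom (A.resp ω π) [] π (l.flatMap W) : ENNReal) := by
      intro ω; simp only [hf]; exact ENNReal.ofReal_natCast _
    simp only [h2]
    refine h1.trans (ENNReal.ofReal_le_ofReal ?_)
    have := le_abs_self a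
    linarith
  have hf0 : ∀ ω l, 0 ≤ f ω l := fun ω l => by simp only [hf]; positivity
  have hint : ∀ l, Integrable (fun ω => f ω l) A.μ := by
    intro l
    refine ⟨(hmeasR l).aestronglyMeasurable, ?_⟩
    rw [hasFiniteIntegral_iff_ofReal (Filter.Eventually.of_forall fun ω => hf0 ω l)]
    exact (hbound l).trans_lt ENNReal.ofReal_lt_top
  have hintle : ∀ l, ∫ ω, f ω l ∂A.μ ≤ C * opt π (l.flatMap W) + |a| := by
    intro l
    rw [integral_eq_lintegral_of_nonneg_ae (Filter.Eventually.of_forall fun ω => hf0 ω l)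
      (hmeasR l).aestronglyMeasurable]
    apply ENNReal.toReal_le_of_le_ofReal _ (hbound l)
    have := abs_nonneg a
    positivity
  -- choose the number of phases
  have hgap : 0 < LB - C * UB := by linarith
  obtain ⟨K, hK⟩ := exists_nat_gt ((C * (n : ℝ) ^ 2 / 2 + |a|) / (LB - C * UB))
  rw [div_lt_iff₀ hgap] at hK
  obtain ⟨hi1, hi2⟩ := playK_integrable (μ := A.μ) K f hint
  -- upper bound
  have hup : ∫ ω, playK K (f ω) ∂A.μ ≤
      (C / 2) * (K * av (fun i => (c i : ℝ))) + (C * (n : ℝ) ^ 2 / 2 + |a|) := by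
    rw [hi2]
    refine (playK_mono K _ (fun l => (C / 2) * (((l.map c).sum : ℕ) : ℝ) +
      (C * (n : ℝ) ^ 2 / 2 + |a|)) (fun l => ?_)).trans (le_of_eq ?_)
    · refine (hintle l).trans ?_
      have h1 := play_opt_off π (play_off_flat W c hOff l)
      have h2 : 2 * (opt π (l.flatMap W) : ℝ) ≤ (((l.map c).sum : ℕ) : ℝ) + (n : ℝ) ^ 2 := by
        exact_mod_cast h1
      nlinarith
    · rw [playK_add K (fun l => (C / 2) * (((l.map c).sum : ℕ) : ℝ))
        (fun _ => (C * (n : ℝ) ^ 2 / 2 + |a|)), playK_const,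
        playK_mul K (C / 2) (fun l => (((l.map c).sum : ℕ) : ℝ)), playK_sum]
  -- lower bound
  have hlow : ∀ᵐ ω ∂A.μ, (K : ℝ) * LB ≤ playK K (f ω) := by
    filter_upwards [hA π] with ω hω
    have hS := inj_listAfter (A.resp ω π) π
    have hP := prj_listAfter hω
    refine (playK_low W hLB hS hP K []).trans ?_
    apply playK_mono
    intro l
    have h3 := cost_ge_AC (A.resp ω π) π [] (l.flatMap W)
    have h4 : AC (fun h => key (listAfter (A.resp ω π) π h)) [] (l.flatMap W) ≤
        costFrom (A.resp ω π) [] π (l.flatMap W) := le_trans (Nat.le_add_left _ _) h3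
    simp only [hf]
    exact_mod_cast h4
  have hfin : (K : ℝ) * LB ≤ ∫ ω, playK K (f ω) ∂A.μ := by
    have h1 : ∫ _ω, (K : ℝ) * LB ∂A.μ ≤ ∫ ω, playK K (f ω) ∂A.μ :=
      integral_mono_ae (integrable_const _) hi1 hlow
    simpa using h1
  have h5 := hfin.trans hup
  have h6 : (C / 2) * (K * av (fun i => (c i : ℝ))) ≤ (C / 2) * (K * (2 * UB)) := by
    apply mul_le_mul_of_nonneg_left _ (by linarith)
    exact mul_le_mul_of_nonneg_left hUB (Nat.cast_nonneg K)
  nlinarith

end Pool.Agent.Lib.MP_b3fcb1_lc.PR
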