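import Pool.Agent.Lib.MP_b3fcb1_lc_proj.Phase
import Pool.Agent.Lib.MP_b3fcb1_lc_proj.Opt2
import Pool.Agent.Lib.MP_b3fcb1_lc_proj.Play
import Pool.Agent.Lib.MP_b3fcb1_lc_proj.Par

/-! The 8/5 barrier for projective algorithms (assembly). -/

set_option autoImplicit false

namespace Pool.Agent.Lib.MP_b3fcb1_lc.PR

open Finset

theorem barrier {C : ℝ} (hC : C < 8 / 5) : ∃ n0 : ℕ, ∀ n : ℕ, n0 ≤ n → ∀ (A : RandAlg n),
    A.Projective → ∀ (π : ItemList n) (a : ℝ),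
      ∃ σ : List (Fin n), ENNReal.ofReal (C * opt π σ + a) < A.expCost π σ := by
  obtain ⟨N, L, Q, K, M, hM, hK, hQ, hN, hL, hS0, hτ, n0, hn0⟩ :=
    param (C := max C 0) (max_lt hC (by norm_num))
  refine ⟨max n0 1, fun n hn A hA π a => ?_⟩
  have hn1 : 0 < n := lt_of_lt_of_le one_pos ((le_max_right _ _).trans hn)
  have hM0 : 0 < M := by omega
  have hN0 : 0 < N := by omega
  haveI : NeZero M := ⟨hM0.ne'⟩
  haveI : NeZero N := ⟨hN0.ne'⟩
  have key := hn0 n ((le_max_left _ _).trans hn)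
  obtain ⟨σ, hσ⟩ := play_final (n := n) (α := Ix n M N) (wd L) (cst L) (off_wd L)
    (UB := (n * M + 2 * n * N * L) + n * (n - 1) / 2 * (4 + 5 / 4 * L))
    (fun S hS hP => phase_bound hS hP hn1 hM hK hQ hN hL hS0 hτ)
    (by refine (av_cst L hM0 hN0).trans (le_of_eq ?_); ring) (le_max_right C 0) key A hA π a
  refine ⟨σ, lt_of_le_of_lt (ENNReal.ofReal_le_ofReal ?_) hσ⟩
  have := mul_le_mul_of_nonneg_right (le_max_left C 0) (Nat.cast_nonneg (α := ℝ) (opt π σ))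
  linarith

end Pool.Agent.Lib.MP_b3fcb1_lc.PR
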