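import Pool.Agent.Lib.MP_b3fcb1_lc_proj.Base

/-!
# Thr (75 min): THE CRITICAL REQUESTS (heart of the proof)

`later` ignores letters other than `x`, `y`. Let `x, y, z` be distinct, `(x, i)`, `(y, j)` good.
(a) INSERTION. Let `h = h1 ++ h2` (latest first), `count x h = i`, `count y h = j`, `g = count x h2`,
`g' = count y h2`, all letters of `h` among `x`, `y` (otherwise filter first). Put `h' = h1 ++ (replicate k z ++ h2)`.
By `Prj`: the order of `x, y` after `h'` is the one after `h`; the order of `x, z` after `h'` is given by `al S z k x i g`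
(the filter of `h'` to `x, z` is `replicate (i - g) x ++ (replicate k z ++ replicate g x)`), the same for `y, z`.
So `al x g` and not `al y g'` imply `x` ahead of `y` (`S h x < S h y`), and the other way round.
(b) MONOTONE. If `g1 < g2 ≤ i`, not `al x g1`, `al x g2`: take `h = replicate (i - g2) x ++ replicate j y ++ replicate g2 x`
(time: `x^g2 y^j x^(i-g2)`): cut after the first `g1` letters `x` (there `al y 0` holds): `y` ahead of `x`; cut after
`x^g2 y^j` (there `al y j` fails): `x` ahead of `y`. Contradiction. So `al x g ↔ g < c`, `c` the number of `g ≤ i` with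
`al x g`, `1 ≤ c ≤ i`. The same for `y`, `c'`.
(c) `lag = i - c`: the `c`-th request to `x` is the occurrence number `i - c` (from 0) in `h`. If in `h` the
occurrence number `j - c'` of `y` is later (smaller index) than the occurrence number `i - c` of `x`: cut just before
(in the list: to the right of) that `x`, more exactly `h = h1 ++ x :: h3` with `i - c` letters `x` in `h1`, take `h2 = x :: h3`:
`count x h2 = c`, so not `al x c`; the `c'`-th `y` is in `h1`, so `count y h2 < c'`, `al y`: `y` ahead of `x`. Otherwise
the symmetric cut gives `x` ahead of `y`. It is convenient to prove by induction on `h`: for `d < count x h`, `e < count y h`: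
`later y x e d h` iff there are `h1, h3` with `h = h1 ++ x :: h3`, `count x h1 = d`, `e < count y h1`, and
`not later y x e d h` iff `h = h1 ++ y :: h3`, `count y h1 = e`, `d < count x h1`.
-/

set_option autoImplicit false

namespace Pool.Agent.Lib.MP_b3fcb1_lc.PR

open Finset

variable {n : ℕ}

theorem Thr_filter {x z : Fin n} : ∀ {h : List (Fin n)}, z ∉ h →
    h.filter (pr x z) = List.replicate (h.count x) x
  | [], _ => by simp
  | a :: h, hz => by
    have hz1 : a ≠ z := fun e => hz (by rw [e]; exact List.mem_cons_self ..)
    have hz2 : z ∉ h := fun e => hz (List.mem_cons_of_mem _ e)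
    by_cases ha : a = x
    · subst ha
      rw [List.filter_cons_of_pos (by simp), Thr_filter hz2, List.count_cons_self,
        List.replicate_succ]
    · rw [List.filter_cons_of_neg (by simp [ha, hz1]), Thr_filter hz2, List.count_cons_of_ne ha]

theorem Thr_filter_z {x y z : Fin n} (hx : x ≠ z) (hy : y ≠ z) (k : ℕ) :
    (List.replicate k z).filter (pr x y) = [] := by
  rw [List.filter_eq_nil_iff]
  intro a ha
  rw [List.mem_replicate] at ha
  rw [ha.2]
  simp [hx.symm, hy.symm]

/-- the order of `x` and `z` after the insertion of `k` requests to `z` -/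
theorem Thr_al {S : St n} (hP : Prj S) {x z : Fin n} (_hxz : x ≠ z) (k : ℕ) {h1 h2 : List (Fin n)}
    (hz1 : z ∉ h1) (hz2 : z ∉ h2) :
    S (h1 ++ (List.replicate k z ++ h2)) x < S (h1 ++ (List.replicate k z ++ h2)) z ↔
      al S z k x ((h1 ++ h2).count x) (h2.count x) := by
  unfold al
  apply hP
  have e : (h1 ++ h2).count x - h2.count x = h1.count x := by
    rw [List.count_append]; omega
  rw [e]
  simp only [List.filter_append]
  rw [Thr_filter hz1, Thr_filter hz2]
  have f1 : ∀ m, (List.replicate m x).filter (pr x z) = List.replicate m x := by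
    intro m
    rw [List.filter_eq_self]
    intro a ha
    rw [List.mem_replicate] at ha
    rw [ha.2]
    simp
  rw [f1, f1]

/-- the insertion argument -/
theorem Thr_ins {S : St n} (hS : Inj S) (hP : Prj S) {x y z : Fin n} (hxz : x ≠ z) (hyz : y ≠ z)
    {k : ℕ} {h1 h2 : List (Fin n)} (hz1 : z ∉ h1) (hz2 : z ∉ h2)
    (h3 : al S z k x ((h1 ++ h2).count x) (h2.count x))
    (h4 : ¬ al S z k y ((h1 ++ h2).count y) (h2.count y)) :
    S (h1 ++ h2) x < S (h1 ++ h2) y := by
  rw [← Thr_al hP hxz k hz1 hz2] at h3
  rw [← Thr_al hP hyz k hz1 hz2] at h4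
  have h5 : S (h1 ++ (List.replicate k z ++ h2)) y ≠ S (h1 ++ (List.replicate k z ++ h2)) z :=
    fun e => hyz (hS _ e)
  have h6 : S (h1 ++ (List.replicate k z ++ h2)) x < S (h1 ++ (List.replicate k z ++ h2)) y := by
    omega
  refine (hP x y _ _ ?_).1 h6
  simp only [List.filter_append]
  rw [Thr_filter_z hxz hyz]
  rfl

theorem Thr_pos {S : St n} {x z : Fin n} {k i : ℕ} (hx : Good S z k x i) : 0 < i := by
  rcases Nat.eq_zero_or_pos i with h | h
  · subst h; exact absurd hx.1 hx.2
  · exact h

/-- monotonicity of the threshold function -/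
theorem Thr_mono {S : St n} (hS : Inj S) (hP : Prj S) {x y z : Fin n} (hxy : x ≠ y) (hxz : x ≠ z)
    (hyz : y ≠ z) {k i j : ℕ} (hy : Good S z k y j) {g1 g2 : ℕ} (h12 : g1 < g2) (h2i : g2 ≤ i)
    (h2 : al S z k x i g2) : al S z k x i g1 := by
  by_contra h1
  set h := List.replicate (i - g2) x ++ (List.replicate j y ++ List.replicate g2 x) with hh
  have n1 : ∀ m, z ∉ List.replicate m x := fun m hm => hxz (List.mem_replicate.1 hm).2.symm
  have n2 : ∀ m, z ∉ List.replicate m y := fun m hm => hyz (List.mem_replicate.1 hm).2.symm
  have cx : h.count x = i := by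
    rw [hh, List.count_append, List.count_append, List.count_replicate_self,
      List.count_replicate_self, List.count_replicate, if_neg (by simpa using hxy.symm)]
    omega
  have cy : h.count y = j := by
    rw [hh, List.count_append, List.count_append, List.count_replicate_self,
      List.count_replicate, List.count_replicate, if_neg (by simpa using hxy),
      if_neg (by simpa using hxy)]
    omega
  -- first cut
  have e1 : h = (List.replicate (i - g2) x ++ (List.replicate j y ++ List.replicate (g2 - g1) x)) ++
      List.replicate g1 x := by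
    rw [hh]
    have : g2 = (g2 - g1) + g1 := by omega
    conv_lhs => rw [this, List.replicate_add]
    have h3 : i - (g2 - g1 + g1) = i - g2 := by omega
    rw [h3]
    simp only [List.append_assoc]
  have c1 : S h y < S h x := by
    rw [e1]
    refine Thr_ins hS hP hyz hxz (k := k) ?_ (n1 _) ?_ ?_
    · simp only [List.mem_append, not_or]
      exact ⟨n1 _, n2 _, n1 _⟩
    · rw [← e1, cy, List.count_replicate, if_neg (by simpa using hxy)]
      exact hy.1
    · rw [← e1, cx, List.count_replicate_self]
      exact h1
  have c2 : S h x < S h y := by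
    rw [hh]
    refine Thr_ins hS hP hxz hyz (k := k) (n1 _) ?_ ?_ ?_
    · simp only [List.mem_append, not_or]
      exact ⟨n2 _, n1 _⟩
    · rw [← hh, cx, List.count_append, List.count_replicate_self, List.count_replicate,
        if_neg (by simpa using hxy.symm), Nat.zero_add]
      exact h2
    · rw [← hh, cy, List.count_append, List.count_replicate_self, List.count_replicate,
        if_neg (by simpa using hxy), Nat.add_zero]
      exact hy.2
  omega

/-- the threshold -/
theorem Thr_thr {S : St n} (hS : Inj S) (hP : Prj S) {x y z : Fin n} (hxy : x ≠ y) (hxz : x ≠ z)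
    (hyz : y ≠ z) {k i j : ℕ} (hy : Good S z k y j) {g : ℕ} (hg : g ≤ i) :
    al S z k x i g ↔ g < ((range (i + 1)).filter fun g => al S z k x i g).card := by
  constructor
  · intro h
    have hsub : range (g + 1) ⊆ (range (i + 1)).filter fun g => al S z k x i g := by
      intro g' hg'
      rw [mem_range] at hg'
      rw [mem_filter, mem_range]
      refine ⟨by omega, ?_⟩
      rcases Nat.lt_or_ge g' g with h3 | h3
      · exact Thr_mono hS hP hxy hxz hyz hy h3 hg h
      · have : g' = g := by omega
        rw [this]; exact h
    have := card_le_card hsub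
    rw [card_range] at this
    omega
  · intro h
    by_contra hn
    have hsub : ((range (i + 1)).filter fun g => al S z k x i g) ⊆ range g := by
      intro g' hg'
      rw [mem_filter, mem_range] at hg'
      rw [mem_range]
      by_contra h3
      rcases Nat.lt_or_ge g g' with h4 | h4
      · exact hn (Thr_mono hS hP hxy hxz hyz hy h4 (by omega) hg'.2)
      · have : g' = g := by omega
        rw [this] at hg'; exact hn hg'.2
    have := card_le_card hsub
    rw [card_range] at this
    omega

theorem lag_lt {S : St n} {x z : Fin n} {k i : ℕ} (hx : Good S z k x i) : lag S z k x i < i := by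
  have h1 := Thr_pos hx
  have h2 : 0 < ((range (i + 1)).filter fun g => al S z k x i g).card :=
    card_pos.2 ⟨0, mem_filter.2 ⟨mem_range.2 (by omega), hx.1⟩⟩
  unfold lag
  omega

theorem Thr_find {x : Fin n} : ∀ {h : List (Fin n)} {d : ℕ}, d < h.count x →
    ∃ h1 h3, h = h1 ++ x :: h3 ∧ h1.count x = d
  | [], d, hd => by simp at hd
  | a :: h, d, hd => by
    by_cases ha : a = x
    · subst ha
      rw [List.count_cons_self] at hd
      rcases Nat.eq_zero_or_pos d with h0 | h0
      · exact ⟨[], h, rfl, by simp [h0]⟩
      · obtain ⟨h1, h3, e, hc⟩ := Thr_find (x := a) (h := h) (d := d - 1) (by omega)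
        exact ⟨a :: h1, h3, by rw [e]; rfl, by rw [List.count_cons_self, hc]; omega⟩
    · rw [List.count_cons_of_ne ha] at hd
      obtain ⟨h1, h3, e, hc⟩ := Thr_find (h := h) hd
      exact ⟨a :: h1, h3, by rw [e]; rfl, by rw [List.count_cons_of_ne ha, hc]⟩

theorem Thr_later {x y : Fin n} (hxy : x ≠ y) : ∀ {h : List (Fin n)} {d e : ℕ}, d < h.count x →
    e < h.count y →
    (later y x e d h → ∃ h1 h3, h = h1 ++ x :: h3 ∧ h1.count x = d ∧ e < h1.count y) ∧
    (¬ later y x e d h → ∃ h1 h3, h = h1 ++ y :: h3 ∧ h1.count y = e ∧ d < h1.count x)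
  | [], d, e, hd, _ => by simp at hd
  | a :: h, d, e, hd, he => by
    by_cases hay : a = y
    · subst hay
      rw [List.count_cons_of_ne hxy.symm] at hd
      rw [List.count_cons_self] at he
      have hl : later a x e d (a :: h) ↔ (e = 0 ∨ later a x (e - 1) d h) := by
        simp [later]
      rw [hl]
      rcases Nat.eq_zero_or_pos e with h0 | h0
      · refine ⟨fun _ => ?_, fun hn => absurd (Or.inl h0) hn⟩
        obtain ⟨h1, h3, e1, hc⟩ := Thr_find hd
        exact ⟨a :: h1, h3, by rw [e1]; rfl, by rw [List.count_cons_of_ne hxy.symm, hc],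
          by rw [List.count_cons_self]; omega⟩
      · obtain ⟨i1, i2⟩ := Thr_later hxy (h := h) (d := d) (e := e - 1) hd (by omega)
        refine ⟨fun hh => ?_, fun hn => ?_⟩
        · obtain ⟨h1, h3, e1, hc, hc'⟩ := i1 (hh.resolve_left (by omega))
          exact ⟨a :: h1, h3, by rw [e1]; rfl, by rw [List.count_cons_of_ne hxy.symm, hc],
            by rw [List.count_cons_self]; omega⟩
        · rw [not_or] at hn
          obtain ⟨h1, h3, e1, hc, hc'⟩ := i2 hn.2
          exact ⟨a :: h1, h3, by rw [e1]; rfl, by rw [List.count_cons_self]; omega,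
            by rw [List.count_cons_of_ne hxy.symm]; exact hc'⟩
    by_cases hax : a = x
    · subst hax
      rw [List.count_cons_self] at hd
      rw [List.count_cons_of_ne hxy] at he
      have hl : later y a e d (a :: h) ↔ (d ≠ 0 ∧ later y a e (d - 1) h) := by
        simp [later, hxy]
      rw [hl]
      rcases Nat.eq_zero_or_pos d with h0 | h0
      · refine ⟨fun hn => absurd h0 hn.1, fun _ => ?_⟩
        obtain ⟨h1, h3, e1, hc⟩ := Thr_find he
        exact ⟨a :: h1, h3, by rw [e1]; rfl, by rw [List.count_cons_of_ne hxy, hc],
          by rw [List.count_cons_self]; omega⟩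
      · obtain ⟨i1, i2⟩ := Thr_later hxy (h := h) (d := d - 1) (e := e) (by omega) he
        refine ⟨fun hh => ?_, fun hn => ?_⟩
        · obtain ⟨h1, h3, e1, hc, hc'⟩ := i1 hh.2
          exact ⟨a :: h1, h3, by rw [e1]; rfl, by rw [List.count_cons_self]; omega,
            by rw [List.count_cons_of_ne hxy]; exact hc'⟩
        · have hn' : ¬ later y a e (d - 1) h := fun hl' => hn ⟨by omega, hl'⟩
          obtain ⟨h1, h3, e1, hc, hc'⟩ := i2 hn'
          exact ⟨a :: h1, h3, by rw [e1]; rfl, by rw [List.count_cons_of_ne hxy, hc],
            by rw [List.count_cons_self]; omega⟩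
    · rw [List.count_cons_of_ne hax] at hd
      rw [List.count_cons_of_ne hay] at he
      have hl : later y x e d (a :: h) ↔ later y x e d h := by
        simp [later, hax, hay]
      rw [hl]
      obtain ⟨i1, i2⟩ := Thr_later hxy (h := h) hd he
      refine ⟨fun hh => ?_, fun hn => ?_⟩
      · obtain ⟨h1, h3, e1, hc, hc'⟩ := i1 hh
        exact ⟨a :: h1, h3, by rw [e1]; rfl, by rw [List.count_cons_of_ne hax, hc],
          by rw [List.count_cons_of_ne hay]; exact hc'⟩
      · obtain ⟨h1, h3, e1, hc, hc'⟩ := i2 hn
        exact ⟨a :: h1, h3, by rw [e1]; rfl, by rw [List.count_cons_of_ne hay, hc],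
          by rw [List.count_cons_of_ne hax]; exact hc'⟩

theorem Thr_later_filter {x y : Fin n} : ∀ (h : List (Fin n)) (d e : ℕ),
    later y x e d (h.filter (pr x y)) ↔ later y x e d h
  | [], d, e => by simp
  | a :: h, d, e => by
    by_cases hay : a = y
    · subst hay
      rw [List.filter_cons_of_pos (by simp)]
      simp only [later, if_true]
      rw [Thr_later_filter h]
    by_cases hax : a = x
    · subst hax
      rw [List.filter_cons_of_pos (by simp)]
      simp only [later, if_neg hay, if_true]
      rw [Thr_later_filter h]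
    · rw [List.filter_cons_of_neg (by simp [hax, hay])]
      simp only [later, if_neg hay, if_neg hax]
      exact Thr_later_filter h d e

theorem thr {S : St n} (hS : Inj S) (hP : Prj S) {x y z : Fin n} (hxy : x ≠ y) (hxz : x ≠ z)
    (hyz : y ≠ z) {k i j : ℕ} (hx : Good S z k x i) (hy : Good S z k y j) (h : List (Fin n))
    (hi : h.count x = i) (hj : h.count y = j) :
    S h y < S h x ↔ later y x (lag S z k y j) (lag S z k x i) h := by
  rw [← Thr_later_filter h]
  have hff : (h.filter (pr x y)).filter (pr y x) = h.filter (pr y x) := by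
    rw [List.filter_filter]
    congr 1
    funext a
    simp only [pr]
    by_cases h1 : a = x <;> by_cases h2 : a = y <;> simp [h1, h2]
  rw [← hP y x _ _ hff]
  have cx : (h.filter (pr x y)).count x = i := by
    rw [List.count_filter (by simp), hi]
  have cy : (h.filter (pr x y)).count y = j := by
    rw [List.count_filter (by simp), hj]
  have hz : z ∉ h.filter (pr x y) := by
    intro hz
    rw [List.mem_filter] at hz
    have := hz.2
    simp [hxz.symm, hyz.symm] at this
  set f := h.filter (pr x y) with hf
  have l1 := lag_lt hx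
  have l2 := lag_lt hy
  have t1 := fun (g : ℕ) (hg : g ≤ i) => Thr_thr hS hP hxy hxz hyz (i := i) hy hg
  have t2 := fun (g : ℕ) (hg : g ≤ j) => Thr_thr hS hP hxy.symm hyz hxz (i := j) hx hg
  have c1 : ((range (i + 1)).filter fun g => al S z k x i g).card = i - lag S z k x i := by
    have : ((range (i + 1)).filter fun g => al S z k x i g).card ≤ i := by
      by_contra hc
      exact hx.2 ((t1 i le_rfl).2 (by omega))
    unfold lag
    omega
  have c2 : ((range (j + 1)).filter fun g => al S z k y j g).card = j - lag S z k y j := by
    have : ((range (j + 1)).filter fun g => al S z k y j g).card ≤ j := by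
      by_contra hc
      exact hy.2 ((t2 j le_rfl).2 (by omega))
    unfold lag
    omega
  obtain ⟨p1, p2⟩ := Thr_later hxy (h := f) (d := lag S z k x i) (e := lag S z k y j)
    (by rw [cx]; exact l1) (by rw [cy]; exact l2)
  constructor
  · intro hlt
    by_contra hn
    obtain ⟨h1, h3, e1, hc, hc'⟩ := p2 hn
    have hz1 : z ∉ h1 := fun hm => hz (by rw [e1]; exact List.mem_append_left _ hm)
    have hz2 : z ∉ y :: h3 := fun hm => hz (by rw [e1]; exact List.mem_append_right _ hm)
    have k1 : h1.count x + (y :: h3).count x = i := by rw [← List.count_append, ← e1, cx]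
    have k2 : h1.count y + (y :: h3).count y = j := by rw [← List.count_append, ← e1, cy]
    have := Thr_ins hS hP hxz hyz (k := k) hz1 hz2
      (by rw [← e1, cx]; exact (t1 _ (by omega)).2 (by rw [c1]; omega))
      (by rw [← e1, cy]; exact fun ha => by
            have := (t2 _ (by omega)).1 ha
            rw [c2] at this
            omega)
    rw [← e1] at this
    omega
  · intro hl
    obtain ⟨h1, h3, e1, hc, hc'⟩ := p1 hl
    have hz1 : z ∉ h1 := fun hm => hz (by rw [e1]; exact List.mem_append_left _ hm)
    have hz2 : z ∉ x :: h3 := fun hm => hz (by rw [e1]; exact List.mem_append_right _ hm)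
    have k1 : h1.count x + (x :: h3).count x = i := by rw [← List.count_append, ← e1, cx]
    have k2 : h1.count y + (x :: h3).count y = j := by rw [← List.count_append, ← e1, cy]
    have := Thr_ins hS hP hyz hxz (k := k) hz1 hz2
      (by rw [← e1, cy]; exact (t2 _ (by omega)).2 (by rw [c2]; omega))
      (by rw [← e1, cx]; exact fun ha => by
            have := (t1 _ (by omega)).1 ha
            rw [c1] at this
            omega)
    rw [← e1] at this
    exact this

end Pool.Agent.Lib.MP_b3fcb1_lc.PR
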