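import Pool.Agent.Lib.MP_b3fcb1_lc_proj.Exp
import Pool.Agent.Lib.MP_b3fcb1_lc_proj.Thr
import Pool.Agent.Lib.MP_b3fcb1_lc_proj.LatW

/-!
# MainP (50 min): the main cost of a pair is bounded below by constant lag costs

`pm_expand`, exchange the sums (`Finset.sum_comm`): it is enough for every `ρ < L` and `j < mx` (resp. `j < my`) that
#{(i, i') good in (S0, K]^2 : ya ..} ≤ #{(rx, ry) in [1, M]^2 : y ahead of x after the history with rx, ry}: the map
`(i, i') ↦ (i - s, i' - t)`, `s = ρ mx + j`, `t = ρ my` (resp. `(ρ+1) mx`, `ρ my + j`), is injective, `s, t ≤ S0`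
(`L mx ≤ S0`), and for `rx = i - s`, `ry = i' - t` the history has `i` letters `x` and `i'` letters `y` (`List.count_replicate`,
count in `rds` is `ρ mx`, `ρ my`), so `thr` and `later_x` / `later_y` give the equivalence with `ya` (`d = lag x i < i`
by `lag_lt`); `¬ ya` is `x` ahead of `y` by `hS` (injective: not `y` ahead and `x ≠ y` gives `x` ahead).
-/

set_option autoImplicit false

namespace Pool.Agent.Lib.MP_b3fcb1_lc.PR

open Finset

variable {n : ℕ}

theorem MainP_c3 {ι κ τ : Type} (A : Finset ι) (B : Finset κ) (U : Finset τ) (F : ι → κ → τ → ℕ) :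
    ∑ i ∈ A, ∑ j ∈ B, ∑ u ∈ U, F i j u = ∑ u ∈ U, ∑ i ∈ A, ∑ j ∈ B, F i j u := by
  rw [sum_congr rfl (fun i _ => sum_comm), sum_comm]

theorem MainP_shift {S0 K M s : ℕ} (hs : s ≤ S0) (hK : K ≤ M) {A : Finset ℕ} (hA : A ⊆ Ioc S0 K)
    (f g : ℕ → ℕ) (h : ∀ i ∈ A, f i ≤ g (i - s)) : ∑ i ∈ A, f i ≤ ∑ r ∈ Icc 1 M, g r := by
  have hinj : Set.InjOn (fun i => i - s) (A : Set ℕ) := by
    intro a ha b hb hab
    have h1 := mem_Ioc.1 (hA ha)
    have h2 := mem_Ioc.1 (hA hb)
    simp only at hab
    omega
  calc ∑ i ∈ A, f i ≤ ∑ i ∈ A, g (i - s) := sum_le_sum h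
    _ = ∑ r ∈ A.image (fun i => i - s), g r := (sum_image hinj).symm
    _ ≤ ∑ r ∈ Icc 1 M, g r := by
        refine sum_le_sum_of_subset fun r hr => ?_
        obtain ⟨a, ha, rfl⟩ := mem_image.1 hr
        have h1 := mem_Ioc.1 (hA ha)
        rw [mem_Icc]
        omega

theorem MainP_count_x {x y : Fin n} (hxy : x ≠ y) (mx my ρ : ℕ) :
    (rds x y mx my ρ).reverse.count x = ρ * mx := by
  rw [List.count_reverse]
  induction ρ with
  | zero => simp [rds]
  | succ ρ ih =>
    rw [Exp_rds, List.count_append, ih, List.count_append, List.count_replicate_self,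
      List.count_replicate, if_neg (by simpa using hxy.symm)]
    ring

theorem MainP_count_y {x y : Fin n} (hxy : x ≠ y) (mx my ρ : ℕ) :
    (rds x y mx my ρ).reverse.count y = ρ * my := by
  rw [List.count_reverse]
  induction ρ with
  | zero => simp [rds]
  | succ ρ ih =>
    rw [Exp_rds, List.count_append, ih, List.count_append, List.count_replicate_self,
      List.count_replicate, if_neg (by simpa using hxy)]
    ring

theorem MainP_pre2_x {x y : Fin n} (hxy : x ≠ y) (o : Bool) (rx ry : ℕ) :
    (pre2 o x y rx ry).count x = rx := by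
  cases o
  · simp only [pre2, Bool.false_eq_true, if_false]
    rw [List.count_append, List.count_replicate_self, List.count_replicate,
      if_neg (by simpa using hxy.symm), Nat.add_zero]
  · simp only [pre2, if_true]
    rw [List.count_append, List.count_replicate_self, List.count_replicate,
      if_neg (by simpa using hxy.symm), Nat.zero_add]

theorem MainP_pre2_y {x y : Fin n} (hxy : x ≠ y) (o : Bool) (rx ry : ℕ) :
    (pre2 o x y rx ry).count y = ry := by
  cases o
  · simp only [pre2, Bool.false_eq_true, if_false]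
    rw [List.count_append, List.count_replicate_self, List.count_replicate,
      if_neg (by simpa using hxy), Nat.zero_add]
  · simp only [pre2, if_true]
    rw [List.count_append, List.count_replicate_self, List.count_replicate,
      if_neg (by simpa using hxy), Nat.add_zero]

theorem main_pair {S : St n} (hS : Inj S) (hP : Prj S) {x y z : Fin n} (hxy : x ≠ y) (hxz : x ≠ z)
    (hyz : y ≠ z) (k : ℕ) (o : Bool) {M K S0 mx my L : ℕ} (hmx : 0 < mx) (hmy : 0 < my)
    (h1 : L * mx ≤ S0) (h2 : L * my ≤ S0) (hK : K ≤ M) :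
    ∑ i ∈ (Ioc S0 K).filter (fun i => Good S z k x i),
      ∑ j ∈ (Ioc S0 K).filter (fun j => Good S z k y j),
        TT o mx my L (lag S z k x i) (lag S z k y j) ≤
    ∑ rx ∈ Icc 1 M, ∑ ry ∈ Icc 1 M, pm S x y o rx ry mx my L := by
  simp only [pm_expand S hxy, TT, rc]
  conv_lhs => rw [MainP_c3]
  conv_rhs => rw [MainP_c3]
  refine sum_le_sum fun ρ hρ => ?_
  rw [mem_range] at hρ
  simp only [card_filter, sum_add_distrib]
  have hLx : (ρ + 1) * mx ≤ S0 := (Nat.mul_le_mul_right mx hρ).trans h1
  have hLy : (ρ + 1) * my ≤ S0 := (Nat.mul_le_mul_right my hρ).trans h2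
  have ex : (ρ + 1) * mx = ρ * mx + mx := by ring
  have ey : (ρ + 1) * my = ρ * my + my := by ring
  refine Nat.add_le_add ?_ ?_
  · conv_lhs => rw [MainP_c3]
    conv_rhs => rw [MainP_c3]
    refine sum_le_sum fun j hj => ?_
    rw [mem_range] at hj
    refine MainP_shift (s := ρ * mx + j) (by omega) hK (filter_subset _ _) _ _ fun i hi => ?_
    refine MainP_shift (s := ρ * my) (by omega) hK (filter_subset _ _) _ _ fun i' hi' => ?_
    rw [mem_filter, mem_Ioc] at hi hi'
    by_cases hy : ya o mx my (lag S z k x i) (lag S z k y i') (ρ * mx + j) (ρ * my)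
    · have l1 := lag_lt hi.2
      have l2 := lag_lt hi'.2
      rw [if_pos hy]
      rw [← later_x hxy o (rx := i - (ρ * mx + j)) (ry := i' - ρ * my) hmx hmy (by omega)
        (by omega), ← thr hS hP hxy hxz hyz hi.2 hi'.2] at hy
      · rw [if_pos hy]
      · rw [List.count_append, List.count_append, List.count_replicate_self,
          MainP_count_x hxy, MainP_pre2_x hxy]
        omega
      · rw [List.count_append, List.count_append, List.count_replicate,
          if_neg (by simpa using hxy), MainP_count_y hxy, MainP_pre2_y hxy]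
        omega
    · rw [if_neg hy]
      exact Nat.zero_le _
  · conv_lhs => rw [MainP_c3]
    conv_rhs => rw [MainP_c3]
    refine sum_le_sum fun j hj => ?_
    rw [mem_range] at hj
    refine MainP_shift (s := (ρ + 1) * mx) (by omega) hK (filter_subset _ _) _ _ fun i hi => ?_
    refine MainP_shift (s := ρ * my + j) (by omega) hK (filter_subset _ _) _ _ fun i' hi' => ?_
    rw [mem_filter, mem_Ioc] at hi hi'
    by_cases hy : ya o mx my (lag S z k x i) (lag S z k y i') ((ρ + 1) * mx) (ρ * my + j)
    · rw [if_neg (not_not_intro hy)]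
      exact Nat.zero_le _
    · have l1 := lag_lt hi.2
      have l2 := lag_lt hi'.2
      rw [if_pos hy]
      rw [← later_y hxy o (rx := i - (ρ + 1) * mx) (ry := i' - (ρ * my + j)) hmx hmy (by omega)
        (by omega), ← thr hS hP hxy hxz hyz hi.2 hi'.2] at hy
      · rw [if_pos]
        exact lt_of_le_of_ne (not_lt.1 hy) fun e => hxy (hS _ e)
      · rw [List.count_append, List.count_append, List.count_append, List.count_replicate_self,
          List.count_replicate, if_neg (by simpa using hxy.symm), MainP_count_x hxy,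
          MainP_pre2_x hxy]
        omega
      · rw [List.count_append, List.count_append, List.count_append, List.count_replicate_self,
          List.count_replicate, if_neg (by simpa using hxy), MainP_count_y hxy,
          MainP_pre2_y hxy]
        omega

end Pool.Agent.Lib.MP_b3fcb1_lc.PR
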