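import Pool.Agent.Lib.MP_b3fcb1_lc_proj.Base

/-!
# Opt1 (60 min): offline cost of one phase

Keys. `base X a = a - n` if `X a`, else `a` (so the items of `X` are in front, index order inside both parts).
`kf f a`: the list `f` with `a` in front: `Function.update f a (-(2 n) - 1)`.
PREFIX: at the requests to `a`: `kf idx a`. MAIN: at the requests to `a ∈ X`: `kf (base X) a`; at a request to `a ∉ X`: `base X`.
Segments: `po x y f (replicate r (a, kf f a)) f` for `f = idx` or `base X`, and `po x y (base X) [(a, base X)] (base X)`:
for `x < y` (the other order by `fl_symm`, `acc_symm`, or treat both orders directly) the value is `0` if `a ≠ x, y`; for `kf f a`,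
`a` the one of `x, y` that is behind in `f`: `2`, the other one: `0`; for `a ∉ X`: `1` if the other one of the pair is ahead
in `base X`, else `0`. `po_append` (Noise.lean) with `g = f` adds the segments: prefix `≤ 2` for a pair, one round: `2` if both
in `X` (only the one behind in the index order pays), else `1`. Between prefix and main and at the end: `po x y idx [] (base X) ≤ 1`.
Total `≤ 2 + 1 + L w + 1`, `w = 2` if both in `X`, else `1`; `0` if `x = y` (`fl_self`, `ah_self`).
-/

set_option autoImplicit false

namespace Pool.Agent.Lib.MP_b3fcb1_lc.PR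

open Finset

variable {n : ℕ}

lemma opt1_po_self {ι : Type*} [DecidableEq ι] (x : ι) (e : ι → ℤ) (LP : List (ι × (ι → ℤ))) :
    ∀ f : ι → ℤ, po x x f LP e = 0 := by
  induction LP with
  | nil => intro f; exact fl_self f e x
  | cons p LP ih =>
    intro f
    simp only [po, fl_self, ih, acc, ah_self]
    simp

lemma opt1_aux {ι : Type*} [DecidableEq ι] (x y a : ι) (f g : ι → ℤ) (r : ℕ) :
    po x y g (List.replicate r (a, g)) f = r * acc a g x y + fl g f x y := by
  induction r with
  | zero => simp [po]
  | succ r ih =>
    rw [List.replicate_succ]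
    simp only [po, ih, fl_same]
    ring

lemma opt1_seg {ι : Type*} [DecidableEq ι] (x y a : ι) (f g : ι → ℤ) (r : ℕ) :
    po x y f (List.replicate r (a, g)) f ≤ 2 * fl f g x y + r * acc a g x y := by
  cases r with
  | zero => simp [po, fl_same]
  | succ r =>
    rw [List.replicate_succ]
    simp only [po, opt1_aux, fl_comm g f]
    ring_nf
    omega

lemma opt1_flat {ι κ : Type*} [DecidableEq ι] (x y : ι) (f : ι → ℤ) (l : List κ)
    (G : κ → List (ι × (ι → ℤ))) (c : κ → ℕ) (hG : ∀ a, po x y f (G a) f ≤ c a) :
    po x y f (l.flatMap G) f ≤ (l.map c).sum := by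
  induction l with
  | nil => simp [po, fl_same]
  | cons a l ih =>
    rw [List.flatMap_cons, List.map_cons, List.sum_cons]
    have h1 := po_append x y f f (G a) (l.flatMap G) f
    have h2 := hG a
    omega

lemma opt1_rep {ι : Type*} [DecidableEq ι] (x y : ι) (f : ι → ℤ) (R : List (ι × (ι → ℤ)))
    (c : ℕ) (hc : po x y f R f ≤ c) (L : ℕ) :
    po x y f (List.replicate L R).flatten f ≤ L * c := by
  induction L with
  | zero => simp [po, fl_same]
  | succ L ih =>
    rw [List.replicate_succ, List.flatten_cons]
    have h1 := po_append x y f f R (List.replicate L R).flatten f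
    have h2 : (L + 1) * c = L * c + c := by ring
    omega

/-- The list `f` with `a` in front. -/
def opt1_kf (f : Fin n → ℤ) (a : Fin n) : Fin n → ℤ := fun b => if b = a then -(2 * n) - 1 else f b

/-- The items of `X` in front. -/
def opt1_base (X : Fin n → Bool) : Fin n → ℤ :=
  fun a => if X a = true then ((a : ℕ) : ℤ) - n else ((a : ℕ) : ℤ)

lemma opt1_idx_inj : Function.Injective (idx : Fin n → ℤ) := by
  intro a b h
  unfold idx at h
  exact Fin.ext (by exact_mod_cast h)

lemma opt1_base_inj (X : Fin n → Bool) : Function.Injective (opt1_base X) := by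
  intro a b h
  unfold opt1_base at h
  have ha := a.isLt
  have hb := b.isLt
  apply Fin.ext
  split_ifs at h <;> omega

lemma opt1_kf_inj {f : Fin n → ℤ} (hf : Function.Injective f) (hlow : ∀ a, -(2 * n : ℤ) ≤ f a)
    (a : Fin n) : Function.Injective (opt1_kf f a) := by
  intro b b' h
  unfold opt1_kf at h
  have h1 := hlow b
  have h2 := hlow b'
  by_cases hb : b = a
  · by_cases hb' : b' = a
    · rw [hb, hb']
    · rw [if_pos hb, if_neg hb'] at h
      omega
  · by_cases hb' : b' = a
    · rw [if_neg hb, if_pos hb'] at h
      omega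
    · rw [if_neg hb, if_neg hb'] at h
      exact hf h

/-- Strategy for a word `pre o r`. -/
def opt1_sp (f : Fin n → ℤ) (P : Fin n → Bool) (o : Bool) (r : Fin n → ℕ) :
    List (Fin n × (Fin n → ℤ)) :=
  (if o then List.finRange n else (List.finRange n).reverse).flatMap fun a =>
    List.replicate (r a) (a, if P a = true then opt1_kf f a else f)

lemma opt1_sp_fst (f : Fin n → ℤ) (P : Fin n → Bool) (o : Bool) (r : Fin n → ℕ) :
    (opt1_sp f P o r).map Prod.fst = pre o r := by
  unfold opt1_sp pre
  rw [List.map_flatMap]
  congr 1
  funext a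
  rw [List.map_replicate]

lemma opt1_sp_inj {f : Fin n → ℤ} (hf : Function.Injective f) (hlow : ∀ a, -(2 * n : ℤ) ≤ f a)
    (P : Fin n → Bool) (o : Bool) (r : Fin n → ℕ) :
    ∀ p ∈ opt1_sp f P o r, Function.Injective p.2 := by
  intro p hp
  unfold opt1_sp at hp
  rw [List.mem_flatMap] at hp
  obtain ⟨a, _, hp⟩ := hp
  have h1 := List.eq_of_mem_replicate hp
  rw [h1]
  simp only
  split_ifs
  · exact opt1_kf_inj hf hlow a
  · exact hf

/-- Bound for the segment of `a`. -/
def opt1_c (f : Fin n → ℤ) (P : Fin n → Bool) (r : Fin n → ℕ) (x y a : Fin n) : ℕ :=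
  (if a = x then (if f y < f x then (if P x = true then 2 else r x) else 0) else 0) +
    (if a = y then (if f x < f y then (if P y = true then 2 else r y) else 0) else 0)

lemma opt1_seg_le {f : Fin n → ℤ} (hf : Function.Injective f) (hlow : ∀ a, -(2 * n : ℤ) ≤ f a)
    (P : Fin n → Bool) (r : Fin n → ℕ) {x y : Fin n} (hxy : x ≠ y) (a : Fin n) :
    po x y f (List.replicate (r a) (a, if P a = true then opt1_kf f a else f)) f ≤
      opt1_c f P r x y a := by
  refine (opt1_seg x y a f _ (r a)).trans ?_
  have hne : f x ≠ f y := fun h => hxy (hf h)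
  have hx := hlow x
  have hy := hlow y
  by_cases hP : P a = true
  · rw [if_pos hP]
    have h1 : acc a (opt1_kf f a) x y = 0 := by
      unfold acc ah opt1_kf
      by_cases hax : a = x
      · subst hax
        rw [if_pos rfl, if_pos rfl, if_neg (Ne.symm hxy), if_neg hxy, if_neg (by omega)]
      · rw [if_neg hax]
        by_cases hay : a = y
        · subst hay
          rw [if_pos rfl, if_neg hxy, if_pos rfl, if_neg (by omega)]
        · rw [if_neg hay]
    rw [h1, mul_zero, add_zero]
    unfold opt1_c
    by_cases hax : a = x
    · subst hax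
      rw [if_pos rfl, if_neg hxy, if_pos hP, add_zero]
      unfold fl opt1_kf
      rw [if_pos rfl, if_neg (Ne.symm hxy)]
      by_cases h2 : f a < f y
      · rw [if_pos (iff_of_true h2 (by omega))]
        omega
      · rw [if_neg (fun h3 => h2 (h3.2 (by omega))), if_pos (by omega)]
    · rw [if_neg hax]
      by_cases hay : a = y
      · subst hay
        rw [if_pos rfl, if_pos hP, zero_add]
        unfold fl opt1_kf
        rw [if_neg hxy, if_pos rfl]
        by_cases h2 : f x < f a
        · rw [if_neg (fun h3 => absurd (h3.1 h2) (by omega)), if_pos h2]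
        · rw [if_pos (iff_of_false h2 (by omega))]
          omega
      · rw [if_neg hay]
        have h2 : fl f (opt1_kf f a) x y = 0 := by
          unfold fl opt1_kf
          rw [if_neg (Ne.symm hax), if_neg (Ne.symm hay), if_pos Iff.rfl]
        rw [h2]
  · rw [if_neg hP, fl_same]
    unfold acc ah opt1_c
    by_cases hax : a = x
    · subst hax
      rw [if_pos rfl, if_neg hxy, if_pos rfl, if_neg hP, if_neg hxy, add_zero, add_zero]
      split_ifs <;> omega
    · rw [if_neg hax, if_neg hax]
      by_cases hay : a = y
      · subst hay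
        rw [if_pos rfl, if_pos rfl, if_neg hP, zero_add, zero_add]
        split_ifs <;> omega
      · rw [if_neg hay, if_neg hay]
        omega

lemma opt1_sp_le {f : Fin n → ℤ} (hf : Function.Injective f) (hlow : ∀ a, -(2 * n : ℤ) ≤ f a)
    (P : Fin n → Bool) (o : Bool) (r : Fin n → ℕ) {x y : Fin n} (hxy : x ≠ y) :
    po x y f (opt1_sp f P o r) f ≤
      (if f y < f x then (if P x = true then 2 else r x) else 0) +
      (if f x < f y then (if P y = true then 2 else r y) else 0) := by
  unfold opt1_sp
  refine (opt1_flat x y f _ _ (opt1_c f P r x y) (opt1_seg_le hf hlow P r hxy)).trans ?_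
  have h1 : ((if o then List.finRange n else (List.finRange n).reverse).map
      (opt1_c f P r x y)).sum = ∑ a, opt1_c f P r x y a := by
    rw [Fin.sum_univ_def]
    split_ifs
    · rfl
    · rw [List.map_reverse, List.sum_reverse]
  rw [h1]
  unfold opt1_c
  rw [sum_add_distrib, sum_ite_eq' univ x, sum_ite_eq' univ y, if_pos (mem_univ _),
    if_pos (mem_univ _)]

/-- twice the offline cost of a phase -/
def cst (L : ℕ) {M N : ℕ} (ι : Ix n M N) : ℕ :=
  2 * (wd L ι).length + ∑ x : Fin n, ∑ y : Fin n, if x = y then 0 else
    4 + L * (if ι.2.2.1 x = true ∧ ι.2.2.1 y = true then 2 else 1)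

theorem off_wd (L : ℕ) {M N : ℕ} (ι : Ix n M N) : Off (wd L ι) (cst L ι) := by
  set X := ι.2.2.1 with hX
  set mm := mlt X (N + 1 + (ι.2.2.2 : ℕ)) with hmm
  set rr : Fin n → ℕ := fun a => (ι.2.1 a : ℕ) + 1 with hrr
  have hlowi : ∀ a : Fin n, -(2 * n : ℤ) ≤ idx a := by
    intro a
    unfold idx
    omega
  have hlowb : ∀ a : Fin n, -(2 * n : ℤ) ≤ opt1_base X a := by
    intro a
    unfold opt1_base
    split_ifs <;> omega
  set P1 := opt1_sp (idx : Fin n → ℤ) (fun _ => true) ι.1 rr with hP1
  set P2 := (List.replicate L (opt1_sp (opt1_base X) X true mm)).flatten with hP2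
  have hmap : (P1 ++ P2).map Prod.fst = wd L ι := by
    rw [List.map_append, hP1, opt1_sp_fst, hP2, List.map_flatten, List.map_replicate, opt1_sp_fst]
    rfl
  refine ⟨P1 ++ P2, hmap, ?_, ?_⟩
  · intro p hp
    rw [List.mem_append] at hp
    rcases hp with hp | hp
    · exact opt1_sp_inj opt1_idx_inj hlowi _ _ _ p hp
    · rw [hP2, List.mem_flatten] at hp
      obtain ⟨l, hl, hp⟩ := hp
      rw [List.eq_of_mem_replicate hl] at hp
      exact opt1_sp_inj (opt1_base_inj X) hlowb _ _ _ p hp
  · unfold cst
    have hlen : (P1 ++ P2).length = (wd L ι).length := by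
      rw [← hmap, List.length_map]
    rw [hlen]
    apply Nat.add_le_add_left
    apply sum_le_sum
    intro x _
    apply sum_le_sum
    intro y _
    by_cases hxy : x = y
    · rw [if_pos hxy, hxy, opt1_po_self]
    · rw [if_neg hxy]
      have h1 := po_append x y idx idx P1 P2 idx
      have h2 := opt1_sp_le opt1_idx_inj hlowi (fun _ => true) ι.1 rr hxy
      rw [← hP1] at h2
      have h3 := po_append x y idx idx [] P2 idx
      have h4 : po x y idx P2 idx ≤ 2 + po x y (opt1_base X) P2 (opt1_base X) := by
        have h5 := po_append x y (opt1_base X) idx [] P2 idx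
        have h6 := po_append x y (opt1_base X) idx P2 [] (opt1_base X)
        rw [List.nil_append] at h5
        rw [List.append_nil] at h6
        have h7 : po x y idx [] (opt1_base X) ≤ 1 := fl_le_one _ _ _ _
        have h8 : po x y (opt1_base X) [] idx ≤ 1 := fl_le_one _ _ _ _
        omega
      have h9 := opt1_sp_le (opt1_base_inj X) hlowb X true mm hxy
      have h10 : (if opt1_base X y < opt1_base X x then (if X x = true then 2 else mm x) else 0) +
          (if opt1_base X x < opt1_base X y then (if X y = true then 2 else mm y) else 0) ≤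
          (if X x = true ∧ X y = true then 2 else 1) := by
        have hx := x.isLt
        have hy := y.isLt
        rw [hmm]
        unfold opt1_base mlt
        by_cases hX1 : X x = true <;> by_cases hX2 : X y = true
        · simp only [hX1, hX2, if_true, and_self]
          split_ifs <;> omega
        · simp only [hX1, hX2, if_true, and_false, Bool.false_eq_true, if_false]
          split_ifs <;> omega
        · simp only [hX1, hX2, if_true, false_and, Bool.false_eq_true, if_false]
          split_ifs <;> omega
        · simp only [hX1, hX2, and_self, Bool.false_eq_true, if_false]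
          split_ifs <;> omega
      have h11 := opt1_rep x y (opt1_base X) (opt1_sp (opt1_base X) X true mm) _
        (h9.trans h10) L
      rw [← hP2] at h11
      have h12 : (if (idx y : ℤ) < idx x then (if (true : Bool) = true then 2 else rr x) else 0) +
          (if (idx x : ℤ) < idx y then (if (true : Bool) = true then 2 else rr y) else 0) ≤ 2 := by
        simp only [if_true]
        split_ifs <;> omega
      have h13 := h2.trans h12
      generalize (L * if X x = true ∧ X y = true then 2 else 1) = q at h11 ⊢
      omega

end Pool.Agent.Lib.MP_b3fcb1_lc.PR
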