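import Pool.Agent.Lib.MP_b3fcb1_lc_proj.Fil
import Pool.Agent.Lib.MP_b3fcb1_lc_proj.Exp
import Pool.Agent.Lib.MP_b3fcb1_lc_proj.Marg

/-!
# PreC (60 min): the prefix pays for the late events

`pre_pair`: `ac S b a [] (replicate i a ++ replicate r b) ≥ #{j < r : Late S a b i j}` (`ac_append`, `ac_run`; equality);
so the double sum is at least `∑_(i in [1,K]) ∑_(j in [1,K]) (M - j) [Late]`, as `r > j` for `M - j` values of `r ≤ M`, and
`M - j ≥ M - K = Q`.
`pre_cost`: `AC S [] (pre o r) = ∑_x ∑_y ac S x y [] (pre o r)`; drop everything except, for `o = true`, the pairs with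
the first item `b` greater than `a` (`ac S b a`, `a < b`), and for `o = false` those with `b < a`; every ordered pair `a ≠ b`
is kept for exactly one `o`. By `pre_eq`, `av_prod`, `av_bool`, `av_marg`, `av_fin` (twice) the average of the kept
term is `1/2 * (1/M^2) ∑ ∑ ac S b a [] (replicate i a ++ replicate r b)`; then `pre_pair` and the definition of `LAM`.
(M > 0 or both sides are 0: for M = 0 also K = 0 and LAM = 0.)
-/

set_option autoImplicit false

namespace Pool.Agent.Lib.MP_b3fcb1_lc.PR

open Finset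

variable {n : ℕ}

theorem prec_late (S : St n) {a b : Fin n} (hab : a ≠ b) (i r : ℕ) :
    ac S b a [] (List.replicate i a ++ List.replicate r b) =
      ((range r).filter fun j => Late S a b i j).card := by
  rw [ac_append, (ac_run S hab.symm [] i).2, List.reverse_replicate, List.append_nil,
    (ac_run S hab.symm (List.replicate i a) r).1, zero_add]
  rfl

theorem prec_row (S : St n) (a b : Fin n) {M K Q : ℕ} (hM : K + Q = M) (i : ℕ) :
    Q * ((Icc 1 K).filter fun j => Late S a b i j).card ≤
      ∑ r ∈ Icc 1 M, ((range r).filter fun j => Late S a b i j).card := by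
  have h1 : Ioc K M ⊆ Icc 1 M := by
    intro r hr
    rw [Finset.mem_Ioc] at hr
    rw [Finset.mem_Icc]
    omega
  have h2 : ∑ r ∈ Ioc K M, ((Icc 1 K).filter fun j => Late S a b i j).card =
      Q * ((Icc 1 K).filter fun j => Late S a b i j).card := by
    rw [Finset.sum_const, Nat.card_Ioc, smul_eq_mul]
    congr 1
    omega
  rw [← h2]
  calc ∑ r ∈ Ioc K M, ((Icc 1 K).filter fun j => Late S a b i j).card
      ≤ ∑ r ∈ Ioc K M, ((range r).filter fun j => Late S a b i j).card := by
        apply Finset.sum_le_sum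
        intro r hr
        rw [Finset.mem_Ioc] at hr
        apply Finset.card_le_card
        intro j hj
        rw [Finset.mem_filter, Finset.mem_Icc] at hj
        rw [Finset.mem_filter, Finset.mem_range]
        exact ⟨by omega, hj.2⟩
    _ ≤ ∑ r ∈ Icc 1 M, ((range r).filter fun j => Late S a b i j).card :=
        Finset.sum_le_sum_of_subset h1

theorem pre_pair (S : St n) {a b : Fin n} (hab : a ≠ b) {M K Q : ℕ} (hM : K + Q = M) :
    Q * ∑ i ∈ Icc 1 K, ((Icc 1 K).filter fun j => Late S a b i j).card ≤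
      ∑ i ∈ Icc 1 M, ∑ r ∈ Icc 1 M,
        ac S b a [] (List.replicate i a ++ List.replicate r b) := by
  simp only [prec_late S hab]
  rw [Finset.mul_sum]
  calc ∑ i ∈ Icc 1 K, Q * ((Icc 1 K).filter fun j => Late S a b i j).card
      ≤ ∑ i ∈ Icc 1 K, ∑ r ∈ Icc 1 M, ((range r).filter fun j => Late S a b i j).card :=
        Finset.sum_le_sum fun i _ => prec_row S a b hM i
    _ ≤ ∑ i ∈ Icc 1 M, ∑ r ∈ Icc 1 M, ((range r).filter fun j => Late S a b i j).card := by
        apply Finset.sum_le_sum_of_subset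
        intro i hi
        rw [Finset.mem_Icc] at hi ⊢
        omega

/-- The cost of the pair in the prefix. -/
noncomputable def prec_g (S : St n) (a b : Fin n) (i r : ℕ) : ℝ :=
  (ac S b a [] (List.replicate i a ++ List.replicate r b) : ℝ)

theorem prec_true {S : St n} (hP : Prj S) (r : Fin n → ℕ) :
    (∑ a, ∑ b, if a < b then prec_g S a b (r a) (r b) else 0) ≤ (AC S [] (pre true r) : ℝ) := by
  unfold AC
  rw [Finset.sum_comm]
  push_cast
  apply Finset.sum_le_sum
  intro b _
  apply Finset.sum_le_sum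
  intro a _
  split_ifs with h
  · unfold prec_g
    rw [← (pre_eq hP h r).1]
  · exact Nat.cast_nonneg _

theorem prec_false {S : St n} (hP : Prj S) (r : Fin n → ℕ) :
    (∑ a, ∑ b, if b < a then prec_g S a b (r a) (r b) else 0) ≤ (AC S [] (pre false r) : ℝ) := by
  unfold AC
  rw [Finset.sum_comm]
  push_cast
  apply Finset.sum_le_sum
  intro b _
  apply Finset.sum_le_sum
  intro a _
  split_ifs with h
  · unfold prec_g
    rw [← (pre_eq hP h r).2]
  · exact Nat.cast_nonneg _

theorem prec_av (S : St n) {a b : Fin n} (hab : a ≠ b) {M K Q : ℕ} (hM : K + Q = M) :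
    (Q * ∑ i ∈ Icc 1 K, ((Icc 1 K).filter fun j => Late S a b i j).card : ℝ) / M ^ 2 ≤
      av (fun r : Fin n → Fin M => prec_g S a b ((r a : ℕ) + 1) ((r b : ℕ) + 1)) := by
  rw [av_marg hab (fun (i j : Fin M) => prec_g S a b ((i : ℕ) + 1) ((j : ℕ) + 1))]
  have h1 : ∀ i : Fin M, av (fun j : Fin M => prec_g S a b ((i : ℕ) + 1) ((j : ℕ) + 1)) =
      (∑ r ∈ Icc 1 M, prec_g S a b ((i : ℕ) + 1) r) / M := fun i =>
    av_fin M (fun r => prec_g S a b ((i : ℕ) + 1) r)
  simp only [h1]
  rw [av_fin M (fun i => (∑ r ∈ Icc 1 M, prec_g S a b i r) / M), ← Finset.sum_div, div_div,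
    ← sq]
  apply div_le_div_of_nonneg_right _ (by positivity)
  have h2 := pre_pair S hab hM
  unfold prec_g
  exact_mod_cast h2

theorem pre_cost {S : St n} (hP : Prj S) {M K Q : ℕ} (hM : K + Q = M) :
    (Q * LAM S K : ℝ) / (2 * M ^ 2) ≤ av (fun ι : Bool × (Fin n → Fin M) =>
      (AC S [] (pre ι.1 (fun a => (ι.2 a : ℕ) + 1)) : ℝ)) := by
  rw [av_prod, av_bool]
  have h1 : (∑ a, ∑ b, if a < b then
      av (fun r : Fin n → Fin M => prec_g S a b ((r a : ℕ) + 1) ((r b : ℕ) + 1)) else 0) ≤
      av (fun r : Fin n → Fin M => (AC S [] (pre true (fun a => (r a : ℕ) + 1)) : ℝ)) := by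
    refine le_trans (le_of_eq ?_) (av_mono fun r => prec_true hP (fun a => (r a : ℕ) + 1))
    rw [av_sum]
    apply Finset.sum_congr rfl
    intro a _
    rw [av_sum]
    apply Finset.sum_congr rfl
    intro b _
    split_ifs with h
    · rfl
    · unfold av
      simp
  have h2 : (∑ a, ∑ b, if b < a then
      av (fun r : Fin n → Fin M => prec_g S a b ((r a : ℕ) + 1) ((r b : ℕ) + 1)) else 0) ≤
      av (fun r : Fin n → Fin M => (AC S [] (pre false (fun a => (r a : ℕ) + 1)) : ℝ)) := by
    refine le_trans (le_of_eq ?_) (av_mono fun r => prec_false hP (fun a => (r a : ℕ) + 1))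
    rw [av_sum]
    apply Finset.sum_congr rfl
    intro a _
    rw [av_sum]
    apply Finset.sum_congr rfl
    intro b _
    split_ifs with h
    · rfl
    · unfold av
      simp
  have h3 : (Q * LAM S K : ℝ) / M ^ 2 ≤
      (∑ a, ∑ b, if a < b then
        av (fun r : Fin n → Fin M => prec_g S a b ((r a : ℕ) + 1) ((r b : ℕ) + 1)) else 0) +
      ∑ a, ∑ b, if b < a then
        av (fun r : Fin n → Fin M => prec_g S a b ((r a : ℕ) + 1) ((r b : ℕ) + 1)) else 0 := by
    unfold LAM
    push_cast
    rw [Finset.mul_sum, Finset.sum_div, ← Finset.sum_add_distrib]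
    apply Finset.sum_le_sum
    intro a _
    rw [Finset.mul_sum, Finset.sum_div, ← Finset.sum_add_distrib]
    apply Finset.sum_le_sum
    intro b _
    rcases lt_trichotomy a b with h | h | h
    · rw [if_neg h.ne, if_pos h, if_neg (not_lt.mpr h.le), add_zero]
      have h5 := prec_av S h.ne hM
      push_cast at h5
      exact h5
    · rw [if_pos h, if_neg (by rw [h]; exact lt_irrefl _), if_neg (by rw [h]; exact lt_irrefl _)]
      simp
    · rw [if_neg h.ne', if_neg (not_lt.mpr h.le), if_pos h, zero_add]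
      have h5 := prec_av S h.ne' hM
      push_cast at h5
      exact h5
  have h4 : (Q * LAM S K : ℝ) / (2 * M ^ 2) = ((Q * LAM S K : ℝ) / M ^ 2) / 2 := by
    rw [div_div, mul_comm ((M : ℝ) ^ 2) 2]
  rw [h4]
  linarith

end Pool.Agent.Lib.MP_b3fcb1_lc.PR
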