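import Mathlib

/-!
# SumG (25 min, only Mathlib): many pairs

For every ordered pair `x ≠ y` outside `z`: `g x * g y ≥ W ^ 2 - W (b x + b y)` (with `g x ≥ W - b x`, `g x ≥ 0`: if `b x ≥ W` or
`b y ≥ W` the right side is `≤ 0`; else `(W - b x)(W - b y) ≥ W^2 - W (b x + b y)`). Sum: `(n - 1)(n - 2)` ordered pairs, every
`b x` occurs `2 (n - 2) ≤ 2 n` times.
-/

set_option autoImplicit false

namespace Pool.Agent.Lib.MP_b3fcb1_lc.PR

open Finset

theorem sumG {n : ℕ} (z : Fin n) (g b : Fin n → ℝ) (W : ℝ) (hW : 0 ≤ W) (hg : ∀ x, 0 ≤ g x)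
    (hb : ∀ x, 0 ≤ b x) (h : ∀ x, x ≠ z → W ≤ g x + b x) :
    W ^ 2 * ((n - 1) * (n - 2)) ≤ ∑ x ∈ univ.erase z, ∑ y ∈ (univ.erase z).erase x, g x * g y +
      2 * W * n * ∑ x ∈ univ.erase z, b x := by
  set s : Finset (Fin n) := univ.erase z with hs
  set B : ℝ := ∑ x ∈ s, b x with hB
  have hB0 : 0 ≤ B := sum_nonneg fun x _ => hb x
  have hn : 1 ≤ n := Nat.one_le_iff_ne_zero.2 (fun h0 => by subst h0; exact z.elim0)
  have hcard : (s.card : ℝ) = (n : ℝ) - 1 := by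
    rw [hs, card_erase_of_mem (mem_univ z), card_univ, Fintype.card_fin, Nat.cast_sub hn,
      Nat.cast_one]
  have hcard2 : ∀ x ∈ s, ((s.erase x).card : ℝ) = (n : ℝ) - 2 := by
    intro x hx
    have h1 : 1 ≤ s.card := card_pos.2 ⟨x, hx⟩
    rw [card_erase_of_mem hx, Nat.cast_sub h1, hcard, Nat.cast_one]
    ring
  have key : ∀ x ∈ s, ∀ y ∈ s.erase x, W ^ 2 - W * (b x + b y) ≤ g x * g y := by
    intro x hx y hy
    have hxz : x ≠ z := ne_of_mem_erase hx
    have hyz : y ≠ z := ne_of_mem_erase (mem_of_mem_erase hy)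
    have h1 := h x hxz
    have h2 := h y hyz
    have h3 : 0 ≤ g x * g y := mul_nonneg (hg x) (hg y)
    have bx := hb x
    have by' := hb y
    by_cases c1 : W ≤ b x + b y
    · have : W * W ≤ W * (b x + b y) := mul_le_mul_of_nonneg_left c1 hW
      nlinarith
    · rw [not_le] at c1
      have e1 : W - b x ≤ g x := by linarith
      have e2 : W - b y ≤ g y := by linarith
      have e3 : (W - b x) * (W - b y) ≤ g x * g y :=
        mul_le_mul e1 e2 (by linarith) (hg x)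
      have e4 : 0 ≤ b x * b y := mul_nonneg bx by'
      nlinarith
  have hin : ∀ x ∈ s, ∑ y ∈ s.erase x, (W ^ 2 - W * (b x + b y)) =
      ((n : ℝ) - 2) * (W ^ 2 - W * b x) - W * (B - b x) := by
    intro x hx
    have e1 : ∑ y ∈ s.erase x, b y = B - b x := by
      rw [hB, ← sum_erase_add s b hx]
      ring
    have e2 : ∀ y ∈ s.erase x, W ^ 2 - W * (b x + b y) = (W ^ 2 - W * b x) - W * b y := by
      intro y _
      ring
    rw [sum_congr rfl e2, sum_sub_distrib, sum_const, nsmul_eq_mul, hcard2 x hx, ← mul_sum, e1]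
  have htot : ∑ x ∈ s, ∑ y ∈ s.erase x, (W ^ 2 - W * (b x + b y)) =
      W ^ 2 * ((n - 1) * (n - 2)) - 2 * W * ((n : ℝ) - 2) * B := by
    rw [sum_congr rfl hin]
    have e2 : ∀ x ∈ s, ((n : ℝ) - 2) * (W ^ 2 - W * b x) - W * (B - b x) =
        (((n : ℝ) - 2) * W ^ 2 - W * B) - (W * ((n : ℝ) - 3)) * b x := by
      intro x _
      ring
    rw [sum_congr rfl e2, sum_sub_distrib, sum_const, nsmul_eq_mul, hcard, ← mul_sum, ← hB]
    ring
  have hle : ∑ x ∈ s, ∑ y ∈ s.erase x, (W ^ 2 - W * (b x + b y)) ≤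
      ∑ x ∈ s, ∑ y ∈ s.erase x, g x * g y :=
    sum_le_sum fun x hx => sum_le_sum fun y hy => key x hx y hy
  rw [htot] at hle
  have h4 : 0 ≤ W * B := mul_nonneg hW hB0
  nlinarith

end Pool.Agent.Lib.MP_b3fcb1_lc.PR
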