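import Pool.Agent.Lib.MP_b3fcb1_lc_proj.MainP
import Pool.Agent.Lib.MP_b3fcb1_lc_proj.PreC
import Pool.Agent.Lib.MP_b3fcb1_lc_proj.Cho
import Pool.Agent.Lib.MP_b3fcb1_lc_proj.ConC
import Pool.Agent.Lib.MP_b3fcb1_lc_proj.SumG

/-!
# Phase (assembly, 90 min): one phase costs a projective algorithm at least ...

See PROJ_PROOF.md (6).  `τ = (8 (L-4) N - 9 L^2) / (4 N) ≤ 2 L`.
-/

set_option autoImplicit false

namespace Pool.Agent.Lib.MP_b3fcb1_lc.PR

open Finset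

variable {n : ℕ}

theorem phase_r {x y : Fin n} (hxy : x ≠ y) (M : ℕ) (F : ℕ → ℕ → ℝ) :
    av (fun r : Fin n → Fin M => F ((r x : ℕ) + 1) ((r y : ℕ) + 1)) =
      (∑ i ∈ Icc 1 M, ∑ j ∈ Icc 1 M, F i j) / M ^ 2 := by
  rw [av_marg hxy (fun (i j : Fin M) => F ((i : ℕ) + 1) ((j : ℕ) + 1))]
  have h1 : ∀ i : Fin M, av (fun j : Fin M => F ((i : ℕ) + 1) ((j : ℕ) + 1)) =
      (∑ r ∈ Icc 1 M, F ((i : ℕ) + 1) r) / M := fun i =>
    av_fin M (fun r => F ((i : ℕ) + 1) r)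
  simp only [h1]
  rw [av_fin M (fun i => (∑ r ∈ Icc 1 M, F i r) / M), ← Finset.sum_div, div_div, ← sq]

theorem phase_X {x y : Fin n} (hxy : x ≠ y) (m : ℕ) (F : ℕ → ℕ → ℝ) :
    av (fun X : Fin n → Bool => F (mlt X m x) (mlt X m y)) =
      (F m m + F m 1 + F 1 m + F 1 1) / 4 := by
  unfold mlt
  rw [av_marg hxy (fun a b : Bool => F (if a then m else 1) (if b then m else 1))]
  rw [av_bool, av_bool, av_bool]
  simp only [if_true, Bool.false_eq_true, if_false]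
  ring

theorem phase_mlt (X : Fin n → Bool) (m : ℕ) (x : Fin n) : mlt X m x = m ∨ mlt X m x = 1 := by
  unfold mlt
  split_ifs
  · exact Or.inl rfl
  · exact Or.inr rfl

/-- the good counts above `2 N L` -/
def phase_gs (S : St n) (z : Fin n) (k S0 K : ℕ) (x : Fin n) : Finset ℕ :=
  (Ioc S0 K).filter (fun i => Good S z k x i)

theorem phase_pair {S : St n} (hS : Inj S) (hP : Prj S) {x y z : Fin n} (hxy : x < y) (hxz : x ≠ z)
    (hyz : y ≠ z) (k : ℕ) {M K N L : ℕ} (hM : K ≤ M) (hM0 : 0 < M) (hN : 4 ≤ N) (hL : 4 ≤ L) :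
    (8 * ((L : ℝ) - 4) * N - 9 * L ^ 2) / (4 * N) *
      (((phase_gs S z k (2 * N * L) K x).card : ℝ) / M *
        (((phase_gs S z k (2 * N * L) K y).card : ℝ) / M)) ≤
    av (fun ι : Ix n M N =>
      ((ac S x y (pre ι.1 (fun a => (ι.2.1 a : ℕ) + 1)).reverse
          (mainW (mlt ι.2.2.1 (N + 1 + (ι.2.2.2 : ℕ))) L) +
        ac S y x (pre ι.1 (fun a => (ι.2.1 a : ℕ) + 1)).reverse
          (mainW (mlt ι.2.2.1 (N + 1 + (ι.2.2.2 : ℕ))) L) : ℕ) : ℝ)) := by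
  have hN0 : (0 : ℝ) < N := by
    have : 0 < N := by omega
    exact_mod_cast this
  have hMr : (0 : ℝ) < M := by exact_mod_cast hM0
  simp only [main_eq hP hxy]
  rw [av_prod]
  have hconst : ∀ c : ℝ, av (fun _ : Bool => c) = c := fun c => av_const c
  rw [← hconst ((8 * ((L : ℝ) - 4) * N - 9 * L ^ 2) / (4 * N) *
      (((phase_gs S z k (2 * N * L) K x).card : ℝ) / M *
        (((phase_gs S z k (2 * N * L) K y).card : ℝ) / M)))]
  refine av_mono fun o => ?_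
  rw [av_prod, av_comm, av_prod, av_comm]
  -- now: average over the multiplicity, then the set, then the prefix
  set GX := phase_gs S z k (2 * N * L) K x with hGX
  set GY := phase_gs S z k (2 * N * L) K y with hGY
  have h1 : ∀ j : Fin N, ∀ X : Fin n → Bool,
      (∑ i ∈ GX, ∑ i' ∈ GY, (TT o (mlt X (N + 1 + (j : ℕ)) x) (mlt X (N + 1 + (j : ℕ)) y) L
        (lag S z k x i) (lag S z k y i') : ℝ)) / M ^ 2 ≤
      av (fun r : Fin n → Fin M => (pm S x y o ((r x : ℕ) + 1) ((r y : ℕ) + 1)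
        (mlt X (N + 1 + (j : ℕ)) x) (mlt X (N + 1 + (j : ℕ)) y) L : ℝ)) := by
    intro j X
    rw [phase_r hxy.ne M (fun a b => (pm S x y o a b
        (mlt X (N + 1 + (j : ℕ)) x) (mlt X (N + 1 + (j : ℕ)) y) L : ℝ))]
    refine div_le_div_of_nonneg_right ?_ (by positivity)
    have hj := j.2
    have hb : ∀ w : Fin n, 0 < mlt X (N + 1 + (j : ℕ)) w ∧
        L * mlt X (N + 1 + (j : ℕ)) w ≤ 2 * N * L := by
      intro w
      have hle : mlt X (N + 1 + (j : ℕ)) w ≤ 2 * N := by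
        rcases phase_mlt X (N + 1 + (j : ℕ)) w with h | h <;> omega
      refine ⟨?_, ?_⟩
      · rcases phase_mlt X (N + 1 + (j : ℕ)) w with h | h <;> omega
      · calc L * mlt X (N + 1 + (j : ℕ)) w ≤ L * (2 * N) := Nat.mul_le_mul_left L hle
          _ = 2 * N * L := by ring
    have h2 := main_pair hS hP hxy.ne hxz hyz k o (hb x).1 (hb y).1 (hb x).2 (hb y).2 hM
    rw [hGX, hGY]
    unfold phase_gs
    exact_mod_cast h2
  have h3 : ∀ j : Fin N, (∑ i ∈ GX, ∑ i' ∈ GY, (T4 o (N + 1 + (j : ℕ)) L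
        (lag S z k x i) (lag S z k y i') : ℝ)) / (4 * M ^ 2) ≤
      av (fun X : Fin n → Bool => av (fun r : Fin n → Fin M =>
        (pm S x y o ((r x : ℕ) + 1) ((r y : ℕ) + 1)
        (mlt X (N + 1 + (j : ℕ)) x) (mlt X (N + 1 + (j : ℕ)) y) L : ℝ))) := by
    intro j
    refine le_trans (le_of_eq ?_) (av_mono (h1 j))
    rw [phase_X hxy.ne (N + 1 + (j : ℕ)) (fun a b => (∑ i ∈ GX, ∑ i' ∈ GY, (TT o a b L
        (lag S z k x i) (lag S z k y i') : ℝ)) / M ^ 2)]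
    unfold T4
    push_cast
    simp only [sum_add_distrib]
    field_simp
    ring
  have h4 : ∀ i i' : ℕ, (8 * ((L : ℝ) - 4) * N - 9 * L ^ 2) ≤ ∑ m ∈ Ioc N (2 * N),
      (T4 o m L (lag S z k x i) (lag S z k y i') : ℝ) := by
    intro i i'
    have h5 := const_avg o hN L (lag S z k x i) (lag S z k y i')
    have h6 : ((8 * (L - 4) * N : ℕ) : ℝ) = 8 * ((L : ℝ) - 4) * N := by
      rw [Nat.cast_mul, Nat.cast_mul, Nat.cast_sub hL]
      norm_num
    have h7 : ((8 * (L - 4) * N : ℕ) : ℝ) ≤ ((∑ m ∈ Ioc N (2 * N), T4 o m L (lag S z k x i)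
        (lag S z k y i') + 9 * L ^ 2 : ℕ) : ℝ) := by exact_mod_cast h5
    rw [h6] at h7
    push_cast at h7
    linarith
  refine le_trans ?_ (av_mono h3)
  rw [av_fin' N (fun m => (∑ i ∈ GX, ∑ i' ∈ GY, (T4 o m L
        (lag S z k x i) (lag S z k y i') : ℝ)) / (4 * M ^ 2)), ← sum_div]
  have h8 : ∑ m ∈ Ioc N (2 * N), ∑ i ∈ GX, ∑ i' ∈ GY, (T4 o m L
        (lag S z k x i) (lag S z k y i') : ℝ) =
      ∑ i ∈ GX, ∑ i' ∈ GY, ∑ m ∈ Ioc N (2 * N), (T4 o m L
        (lag S z k x i) (lag S z k y i') : ℝ) := by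
    rw [sum_comm]
    refine sum_congr rfl fun i _ => ?_
    rw [sum_comm]
  rw [h8]
  have h9 : (GX.card : ℝ) * (GY.card : ℝ) * (8 * ((L : ℝ) - 4) * N - 9 * L ^ 2) ≤
      ∑ i ∈ GX, ∑ i' ∈ GY, ∑ m ∈ Ioc N (2 * N), (T4 o m L
        (lag S z k x i) (lag S z k y i') : ℝ) := by
    calc (GX.card : ℝ) * (GY.card : ℝ) * (8 * ((L : ℝ) - 4) * N - 9 * L ^ 2) =
        ∑ i ∈ GX, ∑ i' ∈ GY, (8 * ((L : ℝ) - 4) * N - 9 * L ^ 2) := by
          rw [sum_const, sum_const, nsmul_eq_mul, nsmul_eq_mul]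
          ring
      _ ≤ _ := sum_le_sum fun i _ => sum_le_sum fun i' _ => h4 i i'
  rw [div_div]
  rw [le_div_iff₀ (by positivity)]
  refine le_trans (le_of_eq ?_) h9
  field_simp

theorem phase_sym {α : Type*} [DecidableEq α] (E : Finset α) (f : α → α → ℝ) :
    ∑ x ∈ E, ∑ y ∈ E.erase x, f y x = ∑ x ∈ E, ∑ y ∈ E.erase x, f x y := by
  refine Finset.sum_comm' fun x y => ?_
  rw [mem_erase, mem_erase]
  constructor
  · rintro ⟨h1, h2, h3⟩
    exact ⟨⟨h2.symm, h1⟩, h3⟩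
  · rintro ⟨⟨h1, h2⟩, h3⟩
    exact ⟨h2, h1.symm, h3⟩

theorem phase_half (S : St n) (z : Fin n) (h w : List (Fin n)) :
    (∑ x ∈ univ.erase z, ∑ y ∈ (univ.erase z).erase x,
      ((ac S x y h w + ac S y x h w : ℕ) : ℝ)) / 2 ≤ (AC S h w : ℝ) := by
  have h1 : (∑ x ∈ univ.erase z, ∑ y ∈ (univ.erase z).erase x,
      ((ac S x y h w + ac S y x h w : ℕ) : ℝ)) =
      2 * ∑ x ∈ univ.erase z, ∑ y ∈ (univ.erase z).erase x, (ac S x y h w : ℝ) := by
    push_cast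
    simp only [sum_add_distrib]
    rw [phase_sym (univ.erase z) (fun x y => (ac S x y h w : ℝ))]
    ring
  rw [h1, mul_div_cancel_left₀ _ (two_ne_zero)]
  unfold AC
  push_cast
  refine le_trans (sum_le_sum_of_subset_of_nonneg (subset_univ _) fun x _ _ =>
    sum_nonneg fun y _ => Nat.cast_nonneg _) ?_
  refine sum_le_sum fun x _ => sum_le_sum_of_subset_of_nonneg (subset_univ _) fun y _ _ =>
    Nat.cast_nonneg _

theorem phase_bound {S : St n} (hS : Inj S) (hP : Prj S) (hn : 0 < n) {M K Q N L : ℕ}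
    (hM : K + Q = M) (hK : 0 < K) (hQ : 8 * L ≤ Q) (hN : 4 ≤ N) (hL : 4 ≤ L) (hS0 : 2 * N * L ≤ K)
    (hτ : 9 * L ^ 2 ≤ 8 * (L - 4) * N) :
    (8 * ((L : ℝ) - 4) * N - 9 * L ^ 2) / (4 * N) * (((K : ℝ) - 2 * N * L) / M) ^ 2 *
      ((n - 1) * (n - 2) / 2) ≤
    av (fun ι : Ix n M N => (AC S [] (wd L ι) : ℝ)) := by
  have hM0 : 0 < M := by omega
  have hKM : K ≤ M := by omega
  haveI : NeZero M := ⟨hM0.ne'⟩
  haveI : NeZero N := ⟨by omega⟩
  have hN0 : (0 : ℝ) < N := by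
    have : 0 < N := by omega
    exact_mod_cast this
  have hMr : (0 : ℝ) < M := by exact_mod_cast hM0
  have hKr : (0 : ℝ) < K := by exact_mod_cast hK
  have hL4 : (4 : ℝ) ≤ L := by exact_mod_cast hL
  obtain ⟨z, k, hzk⟩ := choice hS hn hK
  set τ : ℝ := (8 * ((L : ℝ) - 4) * N - 9 * L ^ 2) / (4 * N) with hτd
  set W : ℝ := ((K : ℝ) - 2 * N * L) / M with hWd
  have hτr : (9 * L ^ 2 : ℝ) ≤ 8 * ((L : ℝ) - 4) * N := by
    have h1 : ((9 * L ^ 2 : ℕ) : ℝ) ≤ ((8 * (L - 4) * N : ℕ) : ℝ) := by exact_mod_cast hτ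
    have h2 : ((8 * (L - 4) * N : ℕ) : ℝ) = 8 * ((L : ℝ) - 4) * N := by
      rw [Nat.cast_mul, Nat.cast_mul, Nat.cast_sub hL]
      norm_num
    rw [h2] at h1
    push_cast at h1
    exact h1
  have hτ0 : 0 ≤ τ := div_nonneg (by linarith) (by positivity)
  have hτ2 : τ ≤ 2 * L := by
    rw [hτd, div_le_iff₀ (by positivity)]
    nlinarith [hN0, hL4, sq_nonneg (L : ℝ)]
  have hS0r : (2 * N * L : ℝ) ≤ K := by exact_mod_cast hS0
  have hW0 : 0 ≤ W := div_nonneg (by linarith) hMr.le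
  have hWK : W ≤ K / M := by
    rw [hWd]
    refine div_le_div_of_nonneg_right ?_ hMr.le
    have : (0 : ℝ) ≤ 2 * N * L := by positivity
    linarith
  set G : Fin n → ℝ := fun x => ((phase_gs S z k (2 * N * L) K x).card : ℝ) / M with hG
  set bn : Fin n → ℕ := fun x => ((Icc 1 K).filter fun i => ¬ Good S z k x i).card with hbn
  set B : Fin n → ℝ := fun x => (bn x : ℝ) / M with hB
  have hGB : ∀ x, x ≠ z → W ≤ G x + B x := by
    intro x _
    rw [hWd, hG, hB]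
    simp only
    rw [← add_div]
    refine div_le_div_of_nonneg_right ?_ hMr.le
    have h1 : (Ioc (2 * N * L) K).card ≤
        (phase_gs S z k (2 * N * L) K x).card + bn x := by
      rw [hbn]
      refine le_trans ?_ (card_union_le _ _)
      refine card_le_card fun i hi => ?_
      rw [mem_union]
      unfold phase_gs
      rw [mem_filter, mem_filter, mem_Icc]
      have h2 := mem_Ioc.1 hi
      by_cases h3 : Good S z k x i
      · exact Or.inl ⟨hi, h3⟩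
      · exact Or.inr ⟨⟨by omega, h2.2⟩, h3⟩
    rw [Nat.card_Ioc] at h1
    have h4 : ((K - 2 * N * L : ℕ) : ℝ) ≤
        (((phase_gs S z k (2 * N * L) K x).card + bn x : ℕ) : ℝ) := by exact_mod_cast h1
    rw [Nat.cast_sub hS0] at h4
    push_cast at h4
    exact h4
  have hsum := sumG z G B W hW0 (fun x => by positivity) (fun x => by positivity) hGB
  have hpre := pre_cost hP hM (K := K) (Q := Q) (M := M)
  -- the whole cost
  have hsplit : ∀ ι : Ix n M N, (AC S [] (pre ι.1 (fun a => (ι.2.1 a : ℕ) + 1)) : ℝ) +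
      (∑ x ∈ univ.erase z, ∑ y ∈ (univ.erase z).erase x,
        ((ac S x y (pre ι.1 (fun a => (ι.2.1 a : ℕ) + 1)).reverse
          (mainW (mlt ι.2.2.1 (N + 1 + (ι.2.2.2 : ℕ))) L) +
        ac S y x (pre ι.1 (fun a => (ι.2.1 a : ℕ) + 1)).reverse
          (mainW (mlt ι.2.2.1 (N + 1 + (ι.2.2.2 : ℕ))) L) : ℕ) : ℝ)) / 2 ≤
      (AC S [] (wd L ι) : ℝ) := by
    intro ι
    unfold wd
    rw [AC_append, List.append_nil]
    push_cast
    have := phase_half S z (pre ι.1 (fun a => (ι.2.1 a : ℕ) + 1)).reverse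
      (mainW (mlt ι.2.2.1 (N + 1 + (ι.2.2.2 : ℕ))) L)
    push_cast at this
    linarith
  refine le_trans ?_ (av_mono hsplit)
  rw [av_add]
  have hA : av (fun ι : Ix n M N => (AC S [] (pre ι.1 (fun a => (ι.2.1 a : ℕ) + 1)) : ℝ)) =
      av (fun ι : Bool × (Fin n → Fin M) =>
        (AC S [] (pre ι.1 (fun a => (ι.2 a : ℕ) + 1)) : ℝ)) := by
    rw [av_prod, av_prod]
    congr 1
    funext o
    rw [av_prod]
    congr 1
    funext r
    haveI : Nonempty ((Fin n → Bool) × Fin N) :=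
      ⟨⟨fun _ => true, ⟨0, by omega⟩⟩⟩
    exact av_const (AC S [] (pre o (fun a => (r a : ℕ) + 1)) : ℝ)
  rw [hA]
  have hB2 : τ * (∑ x ∈ univ.erase z, ∑ y ∈ (univ.erase z).erase x, G x * G y) / 2 ≤
      av (fun ι : Ix n M N => (∑ x ∈ univ.erase z, ∑ y ∈ (univ.erase z).erase x,
        ((ac S x y (pre ι.1 (fun a => (ι.2.1 a : ℕ) + 1)).reverse
          (mainW (mlt ι.2.2.1 (N + 1 + (ι.2.2.2 : ℕ))) L) +
        ac S y x (pre ι.1 (fun a => (ι.2.1 a : ℕ) + 1)).reverse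
          (mainW (mlt ι.2.2.1 (N + 1 + (ι.2.2.2 : ℕ))) L) : ℕ) : ℝ)) / 2) := by
    have hdiv : ∀ f : Ix n M N → ℝ, av (fun ι => f ι / 2) = av f / 2 := by
      intro f
      have := av_mul (2⁻¹) f
      simp only [inv_mul_eq_div] at this
      exact this
    rw [hdiv]
    refine div_le_div_of_nonneg_right ?_ (by norm_num)
    rw [av_sum, mul_sum]
    refine sum_le_sum fun x hx => ?_
    rw [av_sum, mul_sum]
    refine sum_le_sum fun y hy => ?_
    have hxz : x ≠ z := ne_of_mem_erase hx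
    have hyz : y ≠ z := ne_of_mem_erase (mem_of_mem_erase hy)
    have hyx : y ≠ x := ne_of_mem_erase hy
    rcases lt_or_gt_of_ne hyx with h | h
    · have := phase_pair hS hP h hyz hxz k hKM hM0 hN hL
      rw [mul_comm (G x) (G y)]
      simp only [add_comm] at this ⊢
      exact this
    · exact phase_pair hS hP h hxz hyz k hKM hM0 hN hL
  have hzr : (n : ℝ) * K * ∑ x ∈ univ.erase z, (bn x : ℝ) ≤ 2 * (LAM S K : ℝ) := by
    exact_mod_cast hzk
  have hloss : τ * (W * n * ∑ x ∈ univ.erase z, B x) ≤ (Q * LAM S K : ℝ) / (2 * M ^ 2) := by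
    have h1 : ∑ x ∈ univ.erase z, B x = (∑ x ∈ univ.erase z, (bn x : ℝ)) / M := by
      rw [hB, sum_div]
    have hb0 : (0 : ℝ) ≤ ∑ x ∈ univ.erase z, (bn x : ℝ) := sum_nonneg fun x _ => Nat.cast_nonneg _
    have h2 : W * n * ∑ x ∈ univ.erase z, B x ≤ 2 * (LAM S K : ℝ) / M ^ 2 := by
      rw [h1]
      calc W * n * ((∑ x ∈ univ.erase z, (bn x : ℝ)) / M)
          ≤ K / M * n * ((∑ x ∈ univ.erase z, (bn x : ℝ)) / M) := by
            refine mul_le_mul_of_nonneg_right ?_ (by positivity)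
            exact mul_le_mul_of_nonneg_right hWK (Nat.cast_nonneg _)
        _ = (n * K * ∑ x ∈ univ.erase z, (bn x : ℝ)) / M ^ 2 := by field_simp
        _ ≤ 2 * (LAM S K : ℝ) / M ^ 2 := div_le_div_of_nonneg_right hzr (by positivity)
    have hl0 : (0 : ℝ) ≤ LAM S K := Nat.cast_nonneg _
    have hQr : (8 * L : ℝ) ≤ Q := by exact_mod_cast hQ
    calc τ * (W * n * ∑ x ∈ univ.erase z, B x) ≤ 2 * L * (2 * (LAM S K : ℝ) / M ^ 2) :=
          mul_le_mul hτ2 h2 (by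
            refine mul_nonneg (mul_nonneg hW0 (Nat.cast_nonneg _)) ?_
            exact sum_nonneg fun x _ => by positivity) (by positivity)
      _ = (8 * L * LAM S K : ℝ) / (2 * M ^ 2) := by
          field_simp
          ring
      _ ≤ (Q * LAM S K : ℝ) / (2 * M ^ 2) := by
          refine div_le_div_of_nonneg_right ?_ (by positivity)
          exact mul_le_mul_of_nonneg_right hQr hl0
  have hfin : τ * (W ^ 2 * ((n - 1) * (n - 2))) ≤
      τ * (∑ x ∈ univ.erase z, ∑ y ∈ (univ.erase z).erase x, G x * G y +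
        2 * W * n * ∑ x ∈ univ.erase z, B x) := mul_le_mul_of_nonneg_left hsum hτ0
  nlinarith [hfin, hloss, hB2, hpre]

end Pool.Agent.Lib.MP_b3fcb1_lc.PR
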